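import Pool.Agent.MP_154433_an.t4s.Basic

/-! The action of the lattice generated by commuting maps. -/

set_option autoImplicit false
set_option linter.unusedVariables false

open MeasureTheory Filter Function

noncomputable section

namespace Pool.Agent.MP_154433_an.T4S

namespace ActP

theorem ex {G : Type} [Group G] {l : ℕ} (t : Fin l → G) (hc : ∀ i j, Commute (t i) (t j)) :
    ∃ φ : Gm l → G, φ 0 = 1 ∧ (∀ v w, φ (v + w) = φ v * φ w) ∧
      (∀ i (n : ℤ), φ (Pi.single i n) = t i ^ n) ∧
      ∀ (P : Subgroup G) (v : Gm l), (∀ k, t k ^ v k ∈ P) → φ v ∈ P := by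
  have hcomm : Pairwise fun i j : Fin l => ∀ x y : Multiplicative ℤ,
      Commute (zpowersHom G (t i) x) (zpowersHom G (t j) y) := fun i j _ x y =>
    (hc i j).zpow_zpow _ _
  let ψ := MonoidHom.noncommPiCoprod (fun i => zpowersHom G (t i)) hcomm
  refine ⟨fun v => ψ fun i => Multiplicative.ofAdd (v i), map_one ψ,
    fun v w => map_mul ψ (fun i => Multiplicative.ofAdd (v i)) fun i => Multiplicative.ofAdd (w i),
    fun i n => ?_, fun P v h => ?_⟩
  · have e : (fun j => Multiplicative.ofAdd ((Pi.single i n : Gm l) j)) =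
        Pi.mulSingle i (Multiplicative.ofAdd n) := by
      funext j
      by_cases h : j = i
      · subst h
        simp
      · simp [h]
    show ψ _ = _
    rw [e]
    exact MonoidHom.noncommPiCoprod_mulSingle _ i _
  · show ψ _ ∈ P
    rw [MonoidHom.noncommPiCoprod_apply]
    exact P.noncommProd_mem _ fun k _ => h k

variable {X : Type} [MeasurableSpace X] (μ : Measure X)

/-- the permutations that keep the measure and almost keep the set -/
def keep (S : Set X) : Subgroup (Equiv.Perm X) where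
  carrier := {e | MeasurePreserving e μ μ ∧ MeasurePreserving e.symm μ μ ∧ e ⁻¹' S =ᵐ[μ] S}
  one_mem' := ⟨MeasurePreserving.id μ, MeasurePreserving.id μ, EventuallyEq.rfl⟩
  mul_mem' := fun {a b} ha hb => ⟨ha.1.comp hb.1, hb.2.1.comp ha.2.1,
    (hb.1.quasiMeasurePreserving.preimage_ae_eq ha.2.2).trans hb.2.2⟩
  inv_mem' := fun {a} ha => ⟨ha.2.1, ha.1, by
    have h := ha.2.1.quasiMeasurePreserving.preimage_ae_eq ha.2.2
    rw [Equiv.symm_preimage_preimage] at h
    exact h.symm⟩

end ActP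

open ActP in
theorem act : ActS := by
  intro l X _ μ T hT hc
  obtain ⟨φ, h0, ha, hs, hP⟩ := ex (fun i => ((T i).toEquiv : Equiv.Perm X))
    fun i j => Equiv.ext fun x => hc i j x
  have hm : ∀ k, ((T k).toEquiv : Equiv.Perm X) ∈ keep μ Set.univ := fun k =>
    ⟨hT k, (hT k).symm (T k), EventuallyEq.rfl⟩
  refine ⟨fun v => φ v, ⟨fun v => (hP (keep μ Set.univ) v fun k => zpow_mem (hm k) _).1,
    fun x => by rw [h0]; rfl, fun v w x => by rw [ha]; rfl⟩, fun i d => ?_, fun i j => ?_,
    fun S q c hS h v => (hP (keep μ S) _ fun k => ?_).2.2⟩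
  · have e : ((d : ℤ) • Pi.single i 1 : Gm l) = Pi.single i (d : ℤ) := by
      rw [← Pi.single_smul, smul_eq_mul, mul_one]
    show ⇑(φ _) = _
    rw [e, hs, zpow_natCast, Equiv.Perm.coe_pow]
    rfl
  · show ⇑(φ _) = _
    rw [sub_eq_add_neg, ← Pi.single_neg, ha, hs, hs, zpow_neg, zpow_one, zpow_one]
    rfl
  · have h1 := pow_mem (hm k) q
    have h2 : ((T k).toEquiv : Equiv.Perm X) ^ q ∈ keep μ S :=
      ⟨h1.1, h1.2.1, by rw [Equiv.Perm.coe_pow]; exact h k⟩
    rw [Pi.smul_apply, smul_eq_mul, mul_assoc, zpow_mul, zpow_natCast]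
    exact zpow_mem h2 _

end Pool.Agent.MP_154433_an.T4S

end
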