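import Pool.Agent.MP_154433_an.t4s.Basic

/-! Rows Ae and Shift for the commuting case. -/

set_option autoImplicit false
set_option linter.unusedVariables false

open MeasureTheory ProbabilityTheory Filter Topology Function
open scoped BigOperators

noncomputable section

namespace Pool.Agent.MP_154433_an.T4S

open T3S (B1 Mix Bd Wt Gr yw)

namespace AeP

lemma wt_top {σ : ℕ → ℝ} (h0 : ∀ n, 0 ≤ σ n) (h : Gr σ 1) : Tendsto (Wt σ) atTop atTop := by
  refine tendsto_atTop_mono' _ ?_ h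
  filter_upwards [(Real.tendsto_log_atTop.comp tendsto_natCast_atTop_atTop).eventually_ge_atTop 1]
    with M hM
  rw [pow_one]
  exact div_le_self (Finset.sum_nonneg fun n _ => h0 n) hM

/-- a function on `Fin (k * l)` as a function of two indices -/
def cur (k l : ℕ) (α : Type) : (Fin (k * l) → α) ≃ (Fin k → Fin l → α) :=
  (Equiv.arrowCongr finProdFinEquiv.symm (Equiv.refl α)).trans (Equiv.curry _ _ _)

lemma cur_dif {k l H : ℕ} (h h' : Fin (k * l) → Fin H) :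
    cur k l ℤ (T3S.dif h h') = dif (cur k l _ h) (cur k l _ h') := rfl

lemma cur_add {k l : ℕ} (a b : Fin (k * l) → ℤ) :
    cur k l ℤ (a + b) = (cur k l ℤ a : Fin k → Gm l) + cur k l ℤ b := rfl

lemma exp_cur {k l H : ℕ} (F : (Fin k → Fin l → Fin H) → ℂ) :
    𝔼 h : Fin (k * l) → Fin H, F (cur k l _ h) = 𝔼 h, F h :=
  Fintype.expect_equiv (cur k l _) _ _ fun _ => rfl

end AeP

open AeP

theorem shift (h : T3S.ShiftS) : ShiftS := by
  intro k l H M Ψ hH hM hΨ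
  have := h (k * l) H M (fun τ => Ψ (cur k l ℤ τ)) hH hM fun τ => hΨ _
  simp only [cur_add, cur_dif] at this
  rw [← exp_cur, ← exp_cur (fun h => 𝔼 h' : Fin k → Fin l → Fin H, 𝔼 u : Fin k → Fin l → Fin M,
    𝔼 u' : Fin k → Fin l → Fin M, Ψ (dif h h' + dif u u'))]
  have e1 : ∀ a : Fin k → Fin l → Fin H, 𝔼 h' : Fin k → Fin l → Fin H, Ψ (dif a h') =
      𝔼 h' : Fin (k * l) → Fin H, Ψ (dif a (cur k l _ h')) := fun a =>
    (exp_cur fun h' => Ψ (dif a h')).symm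
  have e2 : ∀ a : Fin k → Fin l → Fin H, 𝔼 h' : Fin k → Fin l → Fin H,
      𝔼 u : Fin k → Fin l → Fin M, 𝔼 u' : Fin k → Fin l → Fin M, Ψ (dif a h' + dif u u') =
      𝔼 h' : Fin (k * l) → Fin H, 𝔼 u : Fin (k * l) → Fin M, 𝔼 u' : Fin (k * l) → Fin M,
        Ψ (dif a (cur k l _ h') + dif (cur k l _ u) (cur k l _ u')) := fun a => by
    rw [← exp_cur]
    refine Finset.expect_congr rfl fun h' _ => ?_
    rw [← exp_cur]
    refine Finset.expect_congr rfl fun u _ => ?_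
    rw [← exp_cur]
  simp only [e1, e2]
  refine this.trans (le_of_eq ?_)
  push_cast
  rfl

theorem ae (h1 : NetS) (h2 : T3S.UbS) (h3 : T3S.NormS) (h4 : T3S.AeS) : AeS := by
  intro σ hσ Ω _ P _ E hE hind hP hg
  have h0 : ∀ n, 0 ≤ σ n := fun n => (hσ n).1
  have hW := wt_top h0 hg
  have hstr : ∀ᵐ ω ∂P, ∀ (k l : ℕ) (q : ℤ) (J : ℕ) (r : Fin J → Gm l) (j : ℕ),
      1 ≤ k → q ≠ 0 → Bd (yw σ fun m => ω ∈ E m) → ∀ᶠ M in atTop,
      ∀ u : Fin J → Gm l → ℂ, (∀ t, u t ∈ CZ (k + 1) l q (M ^ 2)) →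
        𝔼 n : Fin l → Fin M, ‖∑ d ∈ Finset.range M, (yw σ (fun m => ω ∈ E m) M d : ℂ) *
          ∏ t, u t (pt n + (d : ℤ) • r t)‖ ≤ 4 * (1 / ((j : ℝ) + 1)) := by
    simp only [ae_all_iff]
    intro k l q J r j hk hq
    obtain ⟨C, S, s1, s2, s3⟩ := h1 k l hk q hq J r (1 / ((j : ℝ) + 1)) (by positivity)
    have := h2 σ hσ Ω P E hE hind hP 1 le_rfl hg C S s1 s2 (1 / ((j : ℝ) + 1)) (by positivity)
    filter_upwards [this] with ω hω hbd
    filter_upwards [hω, s3, hbd] with M m1 m2 m3 u hu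
    refine (m2 _ _ m1 u hu).trans ?_
    have := mul_le_mul_of_nonneg_left m3 (by positivity : (0 : ℝ) ≤ 1 / ((j : ℝ) + 1))
    linarith
  filter_upwards [h4 σ hσ Ω P E hE hind hP hg, hstr] with ω m1 m2 k l q hk hq J r ε hε
  obtain ⟨j, hj⟩ := exists_nat_one_div_lt (by positivity : 0 < ε / 4)
  filter_upwards [m2 k l q J r j hk hq (h3.1 σ _ h0 hW m1.1).2.2.1] with M hM u hu
  exact (hM u hu).trans (by linarith)

end Pool.Agent.MP_154433_an.T4S

end
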