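import Pool.Agent.MP_154433_an.t4s.Basic
import Pool.Agent.MP_154433_an.t3s.Apx

/-! Approximation of convex combinations of blocks on a lattice by dual functions on a power of a
cyclic group. -/

set_option autoImplicit false
set_option linter.unusedVariables false

open MeasureTheory ProbabilityTheory Filter Topology Function
open scoped BigOperators ComplexConjugate InnerProductSpace

noncomputable section

namespace Pool.Agent.MP_154433_an.T4S

open T3S (B1 Dual cub norm_prod_le_one)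
open T3S.Apx (vm exp_mem small)

namespace Apx

lemma dif_lt {k l M : ℕ} (u u' : Fin k → Fin l → Fin M) (j : Fin k) (c : Fin l) :
    |dif u u' j c| + 1 ≤ M := by
  have h1 := (u j c).2
  have h2 := (u' j c).2
  have : |dif u u' j c| < M := by
    rw [abs_lt, dif]
    constructor <;> omega
  omega

/-- the boxes in the finite group -/
def aa (k : ℕ) {l : ℕ} (q : ℤ) (N M : ℕ) (j : Fin k) (u : Fin l → Fin M) : Fin l → ZMod N :=
  fun c => ((q * ((u c : ℕ) : ℤ) : ℤ) : ZMod N)

lemma aa_sub {k l : ℕ} (q : ℤ) (N M : ℕ) (u u' : Fin k → Fin l → Fin M) (j : Fin k) :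
    aa k q N M j (u' j) - aa k q N M j (u j) = fun c => ((q * dif u u' j c : ℤ) : ZMod N) := by
  funext c
  simp only [aa, dif, Pi.sub_apply]
  push_cast
  ring

/-- the functions on the finite group attached to one shift -/
def gam {k l : ℕ} (q : ℤ) (N : ℕ) (β : Fin k → (Fin k → Gm l) → Gm l → ℂ) (t : Fin k → Gm l)
    (i : Fin k) (τ : Fin k → Fin l → ZMod N) (y : Fin l → ZMod N) : ℂ :=
  β i (update t i 0 + fun j c => (τ j c).valMinAbs / q) ((fun c => (y c).valMinAbs) + q • t i)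

lemma cub_eq {k l : ℕ} {q : ℤ} {R C0 M : ℕ} [NeZero (C0 * M)] (hq : q ≠ 0)
    (hC : 2 * ((R : ℤ) + |q|) ≤ C0) (β : Fin k → (Fin k → Gm l) → Gm l → ℂ) (t : Fin k → Gm l)
    {m : Gm l} (hm : ∀ c, |m c| ≤ R * M) :
    cub (aa k q (C0 * M) M) (gam q (C0 * M) β t) (fun c => (m c : ZMod (C0 * M))) =
      𝔼 u : Fin k → Fin l → Fin M, 𝔼 u' : Fin k → Fin l → Fin M,
        ∏ i, β i (update (t + dif u u') i 0) (sh (q • (t + dif u u') i) m) := by
  refine Finset.expect_congr rfl fun u _ => Finset.expect_congr rfl fun u' _ =>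
    Finset.prod_congr rfl fun i _ => ?_
  simp only [gam, aa_sub]
  congr 1
  · funext j c
    by_cases hj : j = i
    · subst hj
      simp
    · have h := small (m := 0) hq hC (by simp; positivity) (dif_lt u u' j c)
      rw [zero_add] at h
      simp only [Pi.add_apply, update_of_ne hj, vm h, Int.mul_ediv_cancel_left _ hq]
  · funext c
    simp only [sh, Pi.add_apply, Pi.smul_apply, smul_eq_mul]
    rw [← Int.cast_add, vm (small hq hC (hm c) (dif_lt u u' i c))]
    ring

lemma aa_inj {k l : ℕ} {q : ℤ} {R C0 M : ℕ} [NeZero (C0 * M)] (hq : q ≠ 0)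
    (hC : 2 * ((R : ℤ) + |q|) ≤ C0) (j : Fin k) :
    Injective (aa k (l := l) q (C0 * M) M j) := by
  intro u u' h
  funext c
  have h1 := congrFun (aa_sub q (C0 * M) M (fun _ => u) (fun _ => u') j) c
  have h2 := small (m := 0) hq hC (by simp; positivity)
    (dif_lt (fun _ : Fin k => u) (fun _ => u') j c)
  rw [zero_add] at h2
  have h3 := vm h2
  rw [← h1, h, sub_self, Pi.zero_apply, ZMod.valMinAbs_zero] at h3
  have h4 := (mul_eq_zero.1 h3.symm).resolve_left hq
  simp only [dif] at h4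
  exact Fin.ext (by omega)

end Apx

open Apx in
theorem apx (h1 : ShiftS) (h2 : T3S.DualS) : ApxS := by
  intro k l hk q R C0 M H0 _ hq hC hH0 w hw
  have hM : 1 ≤ M := Nat.pos_of_ne_zero fun h => NeZero.ne (C0 * M) (by rw [h, mul_zero])
  have hM' : (M : ℝ) ≠ 0 := by exact_mod_cast (by omega : M ≠ 0)
  refine convexHull_min (t := {w : Gm l → ℂ | ∃ u : (Fin l → ZMod (C0 * M)) → ℂ,
    Dual k ((((C0 : ℝ) ^ l) ^ (k + 1)) ^ 2 ^ (k + 1)) u ∧ ∀ m : Gm l, (∀ i, |m i| ≤ R * M) →
      ‖w m - u fun i => (m i : ZMod (C0 * M))‖ ≤ 4 * ((k + 1) * l) * M / H0}) ?_ ?_ hw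
  · rintro _ ⟨H, β, hH, hβ, rfl⟩
    have hH1 : 1 ≤ H := hH0.trans hH
    have : Nonempty (Fin H) := ⟨⟨0, hH1⟩⟩
    have : Nonempty (Fin M) := ⟨⟨0, hM⟩⟩
    refine ⟨fun x => 𝔼 h : Fin (k + 1) → Fin l → Fin H, 𝔼 h' : Fin (k + 1) → Fin l → Fin H,
      cub (aa (k + 1) q (C0 * M) M) (gam q (C0 * M) β (dif h h')) x, ?_, fun m hm => ?_⟩
    · refine exp_mem (T3S.Dual.convex _ _) fun h => exp_mem (T3S.Dual.convex _ _) fun h' => ?_
      have := h2 k hk (Fin l → ZMod (C0 * M)) (Fin l → Fin M) (aa (k + 1) q (C0 * M) M)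
        (gam q (C0 * M) β (dif h h')) (aa_inj hq hC) fun i τ y => hβ _ _ _
      rwa [Fintype.card_fun, Fintype.card_fun, ZMod.card, Fintype.card_fin, Fintype.card_fin,
        Nat.cast_pow, Nat.cast_pow, ← div_pow, Nat.cast_mul, mul_div_cancel_right₀ _ hM'] at this
    · simp only [cub_eq hq hC β _ hm]
      refine (h1 (k + 1) l H M (fun t => ∏ i, β i (update t i 0) (sh (q • t i) m)) hH1 hM
        fun t => norm_prod_le_one _ fun i _ => hβ _ _ _).trans ?_
      have h0 : (0 : ℝ) < H0 := by exact_mod_cast hH0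
      push_cast
      exact div_le_div_of_nonneg_left (by positivity) h0 (by exact_mod_cast hH)
  · rintro w ⟨u, hu, hw⟩ w' ⟨u', hu', hw'⟩ a c ha hc hac
    refine ⟨a • u + c • u', T3S.Dual.convex _ _ hu hu' ha hc hac, fun m hm => ?_⟩
    have e : (a • w + c • w') m - (a • u + c • u') (fun i => (m i : ZMod (C0 * M))) =
        a • (w m - u fun i => (m i : ZMod (C0 * M))) +
          c • (w' m - u' fun i => (m i : ZMod (C0 * M))) := by
      simp only [Pi.add_apply, Pi.smul_apply, smul_sub]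
      ring
    rw [e]
    refine (norm_add_le _ _).trans ?_
    rw [norm_smul, norm_smul, Real.norm_eq_abs, Real.norm_eq_abs, abs_of_nonneg ha,
      abs_of_nonneg hc]
    have k1 := mul_le_mul_of_nonneg_left (hw m hm) ha
    have k2 := mul_le_mul_of_nonneg_left (hw' m hm) hc
    calc _ ≤ (a + c) * (4 * ((k + 1) * l) * M / H0 : ℝ) := by linarith
      _ = _ := by rw [hac, one_mul]

end Pool.Agent.MP_154433_an.T4S

end
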