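import Pool.Agent.MP_154433_an.t4s.Basic
import Pool.Agent.MP_154433_an.t3s.Asm

/-! From the rows and the deterministic theorem to the main statement. -/

set_option autoImplicit false
set_option linter.unusedVariables false

open MeasureTheory ProbabilityTheory Filter Topology Function
open scoped BigOperators

noncomputable section

namespace Pool.Agent.MP_154433_an.T4S

open T3S (PW AsInv Erg nu nb)

theorem hasB0 (h1 : FacS) (h2 : GoodS) (h3 : UnifS) {ν ν' : ℕ → ℕ → ℝ} (hν : PW ν) (hν' : PW ν')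
    (hi : AsInv ν') {l n : ℕ} {q : ℤ} (hs : Str n l q fun M d => ν M d - ν' M d)
    (r : Fin n → Gm l) : HasB0 ν ν' r q := fun X _ μ _ A hA hE =>
  ⟨B0 n μ A q, (h1 n l q X μ A hA).1, h2 n l q _ hs (T3S.Asm.bd_sub hν hν') X μ A hA _ r,
    h3 ν' hν' hi l X μ A hA q n r hE⟩

theorem mainOf (h1 : FacS) (h2 : GoodS) (h3 : UnifS) (h4 : AeS) (h4' : T3S.AeS) (hc : ClsS)
    (hs : SprS) (hn : NearS) (h5 : T3S.NormS) (h6 : T3S.ErgS) (h7 : RedS) (h8 : EndS)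
    (hD : DetS) : MainS := by
  intro σ hσ ha hg Ω _ P _ E hE hind hP
  have h0 : ∀ n, 0 ≤ σ n := fun n => (hσ n).1
  have hW := T3S.Asm.wt_tendsto h0 hg
  filter_upwards [h4 σ hσ Ω P E hE hind hP hg, h4' σ hσ Ω P E hE hind hP hg,
    hc σ hσ Ω P E hE hind hP hg] with ω hω hω' hω'' X _ μ _ l T f hT hC hH hf
  obtain ⟨a1, a2, a3, a4, a5⟩ := h5.1 σ _ h0 hW hω'.1
  have hi := h5.2.2.2 σ h0 ha hW
  have e2 : Erg (nb σ) := h6.1 _ a2 hi
  have e1 : Erg (nu fun m => ω ∈ E m) := h6.2 _ _ e2 (h5.2.1 _ _ a4 hω'.1)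
  obtain ⟨s1, s2⟩ := hs _ _ _ a2 hi a4 hω''
  refine h8 σ _ h0 ha hW a5 l X μ T hT hC (h7 _ _ a4 a5 l X μ T hT hC hH ?_) f hf
  intro n r q A hn1 hq hA hEE
  exact hD _ _ a1 a2 e1 e2 s1 s2 l n r q
    (hasB0 h1 h2 h3 a1 a2 hi (hn n l q _ _ a4 (hω n l q hn1 hq)) r) X μ A hA hEE

end Pool.Agent.MP_154433_an.T4S

end
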