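import Pool.Agent.MP_154433_an.t4s.Basic
import Pool.Agent.MP_154433_an.t4.Spec
import Pool.Agent.MP_154433_an.t3s.Bridge

/-! The deterministic theorem in the vocabulary of the probabilistic part. -/

set_option autoImplicit false
set_option linter.unusedVariables false
set_option warn.classDefReducibility false

open MeasureTheory ProbabilityTheory Filter Topology Function
open scoped BigOperators ComplexConjugate InnerProductSpace

noncomputable section

namespace Pool.Agent.MP_154433_an.T4S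

open T3S (PW MB1 Erg)
open T3S.Bridge (toWt av_eq erg_to exists_MB1)

namespace Bridge

/-- the lattice with the directions of `r` -/
@[reducible] def grp {l n : ℕ} (r : Fin n → Gm l) : T4x.Grp := { Γ := Gm l, 𝒰 := UU r }

lemma spr_to {ν : ℕ → ℕ → ℝ} (h : PW ν) (hs : Spr ν) : T4x.SPR (toWt ν h) := by
  refine ⟨?_, fun r s L N ε H hε hH => ?_⟩
  · filter_upwards [h.2] with M e d hd
    simp only [toWt, if_pos e, Finset.mem_image, Finset.mem_range] at hd
    obtain ⟨a, ha, rfl⟩ := hd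
    rw [Nat.abs_cast]
    exact_mod_cast ha.le
  · filter_upwards [hs r s L N ε H hε hH, h.2] with M hM e m d0 h1 h2 h3
    rw [av_eq h e]
    exact hM m d0 h1 h2 h3

lemma wavg_sub {l : ℕ} {X : Type} (A : Gm l → X → X) (ν ν' : ℕ → ℕ → ℝ) {ι : Type}
    [Fintype ι] (r : ι → Gm l) (f : ι → X → ℂ) (M : ℕ) (x : X) :
    wavg A (fun M d => ν M d - ν' M d) r f M x = wavg A ν r f M x - wavg A ν' r f M x := by
  simp only [wavg, ← Finset.sum_sub_distrib]
  refine Finset.sum_congr rfl fun d _ => ?_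
  push_cast
  ring

lemma wavg_congr {l : ℕ} {X : Type} [MeasurableSpace X] {μ : Measure X} {A : Gm l → X → X}
    (hA : Act μ A) (w : ℕ → ℕ → ℝ) {ι : Type} [Fintype ι] (r : ι → Gm l)
    {f f' : ι → X → ℂ} (h : ∀ i, f i =ᵐ[μ] f' i) (M : ℕ) :
    wavg A w r f M =ᵐ[μ] wavg A w r f' M := by
  have : ∀ᵐ x ∂μ, ∀ (i : ι) (v : Gm l), f i (A v x) = f' i (A v x) :=
    ae_all_iff.2 fun i => ae_all_iff.2 fun v =>
      (hA.mp v).quasiMeasurePreserving.ae_eq_comp (h i)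
  filter_upwards [this] with x hx
  simp only [wavg, hx]

variable {l n : ℕ} (r : Fin n → Gm l)

lemma act (X : @T4x.Sys (grp r)) :
    @Act (@T4x.Sys.X (grp r) X) (@T4x.Sys.ms (grp r) X) l (@T4x.Sys.μ (grp r) X)
      (@T4x.Sys.Tz (grp r) X) :=
  letI := grp r
  ⟨X.mp, X.zero, X.add⟩

end Bridge

open Bridge

theorem detOf (h : ∀ G : T4x.Grp, @T4x.DET G) : DetS := by
  intro ν ν' h1 h2 e1 e2 s1 s2 l n r q hB X _ μ _ A hA hE f hf
  let _ := grp r
  have avg_eq : ∀ {w : ℕ → ℕ → ℝ} (hw : PW w) {M : ℕ}, ∑ d ∈ Finset.range M, w M d = 1 →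
      ∀ (Z : T4x.Sys) (g : Fin n → Z.X → ℂ) (x : Z.X),
      T4x.avg (toWt w hw) M Z r g x = wavg Z.Tz w r g M x := fun hw M e Z g x => by
    rw [T4x.avg, av_eq hw e]
    exact Finset.sum_congr rfl fun d _ => Complex.real_smul
  have van_iff : ∀ (Z : T4x.Sys) (g : Fin n → Z.X → ℂ),
      Van Z.μ Z.Tz (fun M d => ν M d - ν' M d) r g ↔ Tendsto (fun M => ∫ x,
        ‖T4x.avg (toWt ν h1) M Z r g x - T4x.avg (toWt ν' h2) M Z r g x‖ ^ 2 ∂Z.μ)
        atTop (𝓝 0) := fun Z g => by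
    refine tendsto_congr' ?_
    filter_upwards [h1.2, h2.2] with M e e'
    simp only [avg_eq h1 e, avg_eq h2 e', wavg_sub]
  have ee : ∀ Z : T4x.Sys, T4x.EE Z (Set.range fun v : Gm l => q • v) ↔ EE Z.μ Z.Tz r q := by
    intro Z
    constructor
    · intro H u hu S hS hI v
      exact (H u hu S ⟨hS, fun a ha => by rw [Set.mem_singleton_iff.1 ha]; exact hI⟩).2 _ ⟨v, rfl⟩
    · intro H u hu S hS
      refine ⟨hS.1, ?_⟩
      rintro _ ⟨v, rfl⟩
      exact H u hu S hS.1 (hS.2 u rfl) v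
  let Y : T4x.Sys := { X := X, μ := μ, Tz := A, mp := hA.mp, zero := hA.zero, add := hA.add }
  refine (van_iff Y f).2 (h (grp r) _ _ (Fin n) r (Set.range fun v : Gm l => q • v)
    (erg_to h1 e1) (erg_to h2 e2) (spr_to h1 s1) (spr_to h2 s2)
    ⟨fun i => Or.inl ⟨i, rfl⟩, fun i j hij => Or.inr ⟨i, j, hij, rfl⟩⟩ ?_ Y ((ee Y).2 hE) f
    fun i => ⟨(hf i).1.aestronglyMeasurable, 1, Eventually.of_forall (hf i).2⟩)
  intro Z hZ
  have hZA := act r Z
  have hZE := (ee Z).1 hZ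
  have hnull : ∀ (S : Set Z.X) (v : Gm l), MeasurableSet S → Z.μ S = 0 →
      Z.Tz v ⁻¹' S =ᵐ[Z.μ] S := fun S v k1 k2 => by
    have h3 : Z.μ (Z.Tz v ⁻¹' S) = 0 := by
      rw [(Z.mp _).measure_preimage k1.nullMeasurableSet]
      exact k2
    exact (ae_eq_empty.2 h3).trans (ae_eq_empty.2 k2).symm
  have hcong : ∀ (g g' : Z.X → ℂ) (v : Gm l), g =ᵐ[Z.μ] g' →
      ∀ᵐ y ∂Z.μ, g (Z.Tz v y) = g' (Z.Tz v y) := fun g g' v k =>
    (Z.mp v).quasiMeasurePreserving.ae_eq_comp k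
  obtain ⟨B, b1, b2, b3⟩ := hB Z.X Z.μ Z.Tz hZA hZE
  refine ⟨B, ⟨b1.1, MeasurableSpace.generateFrom_le fun S hS => b1.2.2 S hS.1 fun v =>
    hnull S _ hS.1 hS.2, ?_⟩,
    fun u hu S hS => b1.2.2 S hS.1 (hZE u hu S hS.1 (hS.2 u rfl)),
    fun g hg => (van_iff Z g).1 (b2 g hg), ?_⟩
  · rintro v _ ⟨S, hS, rfl⟩
    exact b1.2.1 v S hS
  · intro u hu g hg hg1 hg0 i0 ε hε
    obtain ⟨g', m1, a1⟩ := @exists_MB1 Z.X Z.ms Z.μ g hg.1 hg1
    obtain ⟨H, a, hH, ha, hb⟩ := b3 u hu i0 g' m1 ((condExp_congr_ae a1).symm.trans hg0) ε hε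
    refine ⟨H, a, hH, ha, fun m m' c η hc hc1 hη => ?_⟩
    choose c' m2 a2 using fun i => @exists_MB1 Z.X Z.ms Z.μ (c i) (hc i).1 (hc1 i)
    filter_upwards [hb m m' c' m2 η hη, h2.2] with M hM e
    refine le_of_eq_of_le (integral_congr_ae ?_) hM
    have key := @wavg_congr l Z.X Z.ms Z.μ Z.Tz hZA ν' (Fin n) _ r
      (update c i0 fun y => g (Z.Tz ((m : ℤ) • u) y) * conj (g (Z.Tz ((m' : ℤ) • u) y)))
      (update c' i0 fun y => g' (Z.Tz ((m : ℤ) • u) y) * conj (g' (Z.Tz ((m' : ℤ) • u) y)))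
      (fun i => ?_) M
    · filter_upwards [key] with x hx
      rw [avg_eq h2 e, hx]
    · by_cases hi : i = i0
      · subst hi
        simp only [update_self]
        filter_upwards [hcong g g' ((m : ℤ) • u) a1, hcong g g' ((m' : ℤ) • u) a1] with y k1 k2
        exact congrArg₂ (fun a b => a * conj b) k1 k2
      · simp only [update_of_ne hi]
        exact a2 i

end Pool.Agent.MP_154433_an.T4S

end
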