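import Pool.Agent.MP_154433_an.t4s.Spec

/-! Small lemmas for the rows of the commuting case. -/

set_option autoImplicit false
set_option linter.unusedVariables false

open MeasureTheory ProbabilityTheory Filter Topology Function
open scoped BigOperators ComplexConjugate InnerProductSpace

noncomputable section

namespace Pool.Agent.MP_154433_an.T4S

open T3S (B1 MB1 norm_exp_le_of norm_prod_le_one meas_exp)

variable {l : ℕ}

lemma blk_B1 {X : Type} {k : ℕ} (A : Gm l → X → X) (q : ℤ) (H : ℕ)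
    {β : Fin k → (Fin k → Gm l) → X → ℂ} (hβ : ∀ i τ, B1 (β i τ)) : B1 (blk A q H β) := fun x =>
  norm_exp_le_of zero_le_one fun h _ => norm_exp_le_of zero_le_one fun h' _ =>
    norm_prod_le_one _ fun i _ => hβ _ _ _

lemma CZ_B1 {k : ℕ} {q : ℤ} {H0 : ℕ} {u : Gm l → ℂ} (hu : u ∈ CZ k l q H0) : B1 u := by
  refine convexHull_min ?_ B1.convex hu
  rintro _ ⟨H, β, -, hβ, rfl⟩
  exact blk_B1 _ _ _ hβ

variable {X : Type} [MeasurableSpace X] {μ : Measure X} {A : Gm l → X → X}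

namespace Act

lemma meas (hA : Act μ A) (v : Gm l) : Measurable (A v) := (hA.mp v).measurable

lemma comm (hA : Act μ A) (v w : Gm l) (x : X) : A v (A w x) = A w (A v x) := by
  rw [← hA.add, ← hA.add, add_comm]

lemma integral (hA : Act μ A) (v : Gm l) {E : Type} [NormedAddCommGroup E] [NormedSpace ℝ E]
    {f : X → E} (hf : AEStronglyMeasurable f μ) : ∫ x, f (A v x) ∂μ = ∫ x, f x ∂μ := by
  have h := hA.mp v
  rw [← integral_map h.measurable.aemeasurable (by rwa [h.map_eq]), h.map_eq]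

lemma tz (hA : Act μ A) {f : X → ℂ} (hf : MB1 f) (v : Gm l) : MB1 fun x => f (A v x) :=
  ⟨hf.1.comp (hA.meas v), hf.2.comp _⟩

lemma dd (hA : Act μ A) {f : X → ℂ} (hf : MB1 f) (v : Gm l) : MB1 (ddX A v f) :=
  (hA.tz hf v).mul hf.cj

lemma blk_MB1 (hA : Act μ A) {k : ℕ} (q : ℤ) (H : ℕ) {β : Fin k → (Fin k → Gm l) → X → ℂ}
    (hβ : ∀ i τ, MB1 (β i τ)) : MB1 (blk A q H β) :=
  ⟨meas_exp _ fun h _ => meas_exp _ fun h' _ =>
    Finset.measurable_prod _ fun i _ => (hA.tz (hβ _ _) _).1, blk_B1 _ _ _ fun i τ => (hβ i τ).2⟩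

lemma CX_MB1 (hA : Act μ A) {k : ℕ} {q : ℤ} {H0 : ℕ} {u : X → ℂ} (hu : u ∈ CX k A q H0) :
    MB1 u := by
  refine convexHull_min ?_ MB1.convex hu
  rintro _ ⟨H, β, -, hβ, rfl⟩
  exact hA.blk_MB1 _ _ hβ

lemma wavg_meas (hA : Act μ A) {ι : Type} [Fintype ι] (w : ℕ → ℕ → ℝ) (r : ι → Gm l)
    {f : ι → X → ℂ} (hf : ∀ i, Measurable (f i)) (M : ℕ) : Measurable (wavg A w r f M) :=
  Finset.measurable_sum _ fun d _ =>
    (Finset.measurable_prod _ fun i _ => (hf i).comp (hA.meas _)).const_mul _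

lemma QX_tz (hA : Act μ A) (L : List (Fam l)) (v : Gm l) {g : X → ℂ} (hg : MB1 g) :
    QX μ A L (fun x => g (A v x)) = QX μ A L g := by
  induction L generalizing g with
  | nil => simp only [QX, hA.integral v hg.1.aestronglyMeasurable]
  | cons F L ih =>
    simp only [QX]
    refine Finset.expect_congr rfl fun h _ => Finset.expect_congr rfl fun h' _ => ?_
    rw [← ih (hA.dd hg _)]
    congr 1
    funext x
    simp only [ddX, hA.comm v]

end Act

omit [MeasurableSpace X] in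
lemma wavg_norm_le {ι : Type} [Fintype ι] (A : Gm l → X → X) (w : ℕ → ℕ → ℝ) (r : ι → Gm l)
    {f : ι → X → ℂ} (hf : ∀ i, B1 (f i)) (M : ℕ) (x : X) :
    ‖wavg A w r f M x‖ ≤ ∑ d ∈ Finset.range M, |w M d| := by
  refine (norm_sum_le _ _).trans (Finset.sum_le_sum fun d _ => ?_)
  rw [norm_mul, Complex.norm_real, Real.norm_eq_abs]
  exact mul_le_of_le_one_right (abs_nonneg _) (norm_prod_le_one _ fun i _ => hf i _)

lemma QX_ln (μ : Measure X) (A : Gm l → X → X) (u : Gm l) (H : ℕ) (L : List (Fam l)) (g : X → ℂ) :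
    QX μ A (ln u H :: L) g = 𝔼 h : Fin H, 𝔼 h' : Fin H,
      QX μ A L (ddX A ((((h' : ℕ) : ℤ) - ((h : ℕ) : ℤ)) • u) g) := by
  simp only [sub_smul]
  rfl

lemma QX_cu (μ : Measure X) (A : Gm l → X → X) (q : ℤ) (K : ℕ) (L : List (Fam l)) (g : X → ℂ) :
    QX μ A (cu l q K :: L) g = 𝔼 h : Fin l → Fin K, 𝔼 h' : Fin l → Fin K,
      QX μ A L (ddX A (q • (pt h' - pt h)) g) := by
  simp only [smul_sub]
  rfl

end Pool.Agent.MP_154433_an.T4S

end
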