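import Mathlib
import Pool.Agent.MP_154433_an.t4s.Basic

/-! Classes of exponential relations have small random weight. -/

set_option autoImplicit false
set_option linter.unusedVariables false

open MeasureTheory ProbabilityTheory Filter Topology Function
open scoped BigOperators ComplexConjugate InnerProductSpace

noncomputable section

namespace Pool.Agent.MP_154433_an.T4S

open T3S (B1 yw Gr)
open T4x (Lau cls)

namespace ClsR

lemma noeth (r : ℕ) : IsNoetherianRing (Lau r) := Algebra.FiniteType.isNoetherianRing ℤ (Lau r)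

lemma cntL (r : ℕ) : Countable (Lau r) := AddMonoidAlgebra.coeff_injective.countable

/-- the parameters of the classes at scale `M` -/
def par (r s L M : ℕ) : Finset ((Fin s → Fin r → ℤ) × ℤ) :=
  (Fintype.piFinset fun _ : Fin s => Fintype.piFinset fun _ : Fin r =>
    Finset.Icc (-((L : ℤ) * M)) (L * M)) ×ˢ Finset.Icc (-(M : ℤ)) M

open Classical in
/-- the indicator functions of the classes at scale `M` -/
def fam {r s : ℕ} (L : ℕ) (N : Submodule (Lau r) (Fin s → Lau r)) (M : ℕ) : Finset (ℕ → ℂ) :=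
  (par r s L M).image
    fun p d => (((cls N p.1 M p.2).indicator (fun _ => (1 : ℝ)) (d : ℤ) : ℝ) : ℂ)

lemma fam_B1 {r s : ℕ} (L : ℕ) (N : Submodule (Lau r) (Fin s → Lau r)) (M : ℕ) :
    ∀ c ∈ fam L N M, B1 c := by
  intro c hc
  simp only [fam, Finset.mem_image] at hc
  obtain ⟨p, -, rfl⟩ := hc
  intro d
  by_cases h : (d : ℤ) ∈ cls N p.1 M p.2 <;> simp [h]

lemma icc_card (n : ℕ) : (Finset.Icc (-(n : ℤ)) n).card = 2 * n + 1 := by
  rw [Int.card_Icc]
  omega

lemma par_card (r s L M : ℕ) : (par r s L M).card = ((2 * (L * M) + 1) ^ r) ^ s * (2 * M + 1) := by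
  have h := icc_card (L * M)
  push_cast at h
  simp only [par, Finset.card_product, Fintype.card_piFinset, Finset.prod_const, Finset.card_univ,
    Fintype.card_fin, h, icc_card]

lemma lin_le (a : ℝ) (ha : 1 ≤ a) (M : ℕ) (hM : 1 ≤ M) :
    a * M ≤ Real.exp (a * (Real.log M + 1)) := by
  have h1 : (1 : ℝ) ≤ M := by exact_mod_cast hM
  have h2 : 0 ≤ Real.log M := Real.log_nonneg h1
  have h3 : a ≤ Real.exp a := by have := Real.add_one_le_exp a; linarith
  have h4 : (M : ℝ) ≤ Real.exp (a * Real.log M) := by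
    calc (M : ℝ) = Real.exp (Real.log M) := (Real.exp_log (by linarith)).symm
      _ ≤ _ := Real.exp_le_exp.2 (by nlinarith)
  rw [mul_add, mul_one, Real.exp_add, mul_comm a]
  exact mul_le_mul h4 h3 (by linarith) (Real.exp_pos _).le

lemma fam_card {r s : ℕ} (L : ℕ) (N : Submodule (Lau r) (Fin s → Lau r)) (M : ℕ) (hM : 1 ≤ M) :
    ((fam L N M).card : ℝ) ≤
      Real.exp ((((r * s + 1 : ℕ) : ℝ) * (2 * L + 3)) * (Real.log M + 1) ^ 1) := by
  classical
  have h0 : (fam L N M).card ≤ (par r s L M).card := Finset.card_image_le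
  have h1 : (1 : ℝ) ≤ M := by exact_mod_cast hM
  have hL : (0 : ℝ) ≤ L := Nat.cast_nonneg L
  have h2 := lin_le (2 * L + 3) (by linarith) M hM
  set e := Real.exp ((2 * L + 3) * (Real.log M + 1)) with he
  have h3 : (2 * (L * M) + 1 : ℝ) ≤ e := by nlinarith
  have h4 : (2 * M + 1 : ℝ) ≤ e := by nlinarith
  have h5 : ((par r s L M).card : ℝ) ≤ e ^ (r * s + 1) := by
    rw [par_card, pow_succ, pow_mul]
    push_cast
    gcongr
  rw [pow_one, mul_assoc, Real.exp_nat_mul]
  exact le_trans (by exact_mod_cast h0) h5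

lemma fam_mem {r s : ℕ} (L : ℕ) (N : Submodule (Lau r) (Fin s → Lau r)) (M : ℕ)
    (m : Fin s → Fin r → ℤ) (d0 : ℤ) (hm : ∀ k i, |m k i| ≤ L * M) (hd : |d0| ≤ M) :
    (fun d : ℕ => (((cls N m M d0).indicator (fun _ => (1 : ℝ)) (d : ℤ) : ℝ) : ℂ)) ∈ fam L N M := by
  simp only [fam, Finset.mem_image]
  refine ⟨(m, d0), ?_, rfl⟩
  simp only [par, Finset.mem_product, Fintype.mem_piFinset, Finset.mem_Icc]
  exact ⟨fun k i => abs_le.1 (hm k i), abs_le.1 hd⟩

end ClsR

open ClsR

theorem cnt : CntS := by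
  intro r s
  have := noeth r
  have := cntL r
  have hs : Surjective fun t : Finset (Fin s → Lau r) =>
      Submodule.span (Lau r) (t : Set (Fin s → Lau r)) := fun N =>
    IsNoetherian.noetherian N
  exact hs.countable

theorem clsr (h1 : T3S.UbS) (h2 : CntS) : ClsS := by
  intro σ hσ Ω _ P _ E hE hind hP hg
  have h : ∀ᵐ ω ∂P, ∀ (r s L : ℕ) (N : Submodule (Lau r) (Fin s → Lau r)) (j : ℕ),
      ∀ᶠ M in atTop, ∀ c ∈ fam L N M,
        ‖∑ d ∈ Finset.range M, (yw σ (fun m => ω ∈ E m) M d : ℂ) * c d‖ ≤ 1 / ((j : ℝ) + 1) := by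
    refine ae_all_iff.2 fun r => ae_all_iff.2 fun s => ae_all_iff.2 fun L => ?_
    have := h2 r s
    refine ae_all_iff.2 fun N => ae_all_iff.2 fun j => ?_
    exact h1 σ hσ Ω P E hE hind hP 1 le_rfl hg _ (fam L N) (fam_B1 L N) (fam_card L N) _
      (by positivity)
  filter_upwards [h] with ω hω r s L N η hη
  obtain ⟨j, hj⟩ := exists_nat_one_div_lt hη
  filter_upwards [hω r s L N j] with M hM m d0 hm hd
  have h3 := hM _ (fam_mem L N M m d0 hm hd)
  simp only [← Complex.ofReal_mul, ← Complex.ofReal_sum, Complex.norm_real, Real.norm_eq_abs] at h3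
  exact h3.trans hj.le

end Pool.Agent.MP_154433_an.T4S

end
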