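import Pool.Agent.MP_154433_an.t4s.Basic
import Pool.Agent.MP_154433_an.t3f.Plumb
import Pool.Agent.MP_154433_an.t3u.Spec

/-! Nets of polynomial size for dual functions on powers of cyclic groups. -/

set_option autoImplicit false
set_option linter.unusedVariables false

open Filter Topology Function
open scoped BigOperators

noncomputable section

namespace Pool.Agent.MP_154433_an.T4S

open T3S (B1 LG Dual one_le_LG)

namespace Cov

lemma rk (l N : ℕ) : T3u.Rk l (Fin l → ZMod (N + 1)) := by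
  classical
  refine ⟨fun i => Pi.single i 1, (AddSubgroup.eq_top_iff' _).2 fun x => ?_⟩
  rw [← Finset.univ_sum_single x]
  refine AddSubgroup.sum_mem _ fun i _ => ?_
  have e : (Pi.single i (x i) : Fin l → ZMod (N + 1)) =
      (x i).val • (Pi.single i 1 : Fin l → ZMod (N + 1)) := by
    rw [← Pi.single_smul, nsmul_eq_mul, mul_one, ZMod.natCast_zmod_val]
  rw [e]
  exact AddSubgroup.nsmul_mem _ (AddSubgroup.subset_closure (Set.mem_range_self i)) _

lemma lg (l N : ℕ) : LG (Fin l → ZMod (N + 1)) ≤ (l + 1) * (Real.log ((N + 1 : ℕ) : ℝ) + 1) := by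
  have h := Real.log_natCast_nonneg (N + 1)
  rw [LG, Fintype.card_fun, ZMod.card, Fintype.card_fin, Nat.cast_pow, Real.log_pow]
  nlinarith [Nat.cast_nonneg (α := ℝ) l]

end Cov

theorem cov (h : T3u.InvG) : CovS := by
  intro k l A ε hA hε
  obtain ⟨c, C, hc, hC, h⟩ := h l (fun N => Fin l → ZMod (N + 1)) (Cov.rk l) k
    ((ε ^ 2 / 4) ^ 2 ^ (k + 1) / A) (by positivity)
  obtain ⟨n, hn⟩ := T3F.covG k hA hε hc
  refine ⟨n * (C + 5) * (l + 1), by positivity, fun N _ => ?_⟩
  obtain ⟨N, rfl⟩ := Nat.exists_eq_succ_of_ne_zero (NeZero.ne N)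
  obtain ⟨F, f1, f2, f3⟩ := h N
  obtain ⟨V, v1, v2, v3⟩ := hn _ F f1 f3
  refine ⟨V, v1, (T3F.card_exp hC one_le_LG f2 v2).trans (Real.exp_le_exp.2 ?_), v3⟩
  rw [mul_assoc (n * (C + 5))]
  exact mul_le_mul_of_nonneg_left (Cov.lg l N) (by positivity)

end Pool.Agent.MP_154433_an.T4S

end
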