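import Pool.Agent.MP_154433_an.t4s.Basic
import Pool.Agent.MP_154433_an.t3s.End

/-! From the vanishing of the weighted averages to the convergence of the averages, commuting
maps. -/

set_option autoImplicit false
set_option linter.unusedVariables false

open MeasureTheory ProbabilityTheory Filter Topology Function Asymptotics
open scoped BigOperators ComplexConjugate InnerProductSpace

noncomputable section

namespace Pool.Agent.MP_154433_an.T4S

theorem endr : EndS := by
  intro σ p h0 ha hW H1 ℓ X _ μ _ T hT hc hV f hf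
  choose c f' hm hb he using fun i => exists_rep (hf i)
  have H2 := hV (fun i x => (f' i x : ℂ)) fun i => ⟨Complex.measurable_ofReal.comp (hm i),
    fun x => by simpa using hb i x⟩
  obtain ⟨F, G, hF, h1, h2⟩ := T3S.End.core h0 ha hW p T H1 hT hc f' hm hb
    (H2.congr fun M => integral_congr_ae (Eventually.of_forall fun x => by
      beta_reduce
      rw [← sq_abs (∑ _ ∈ _, _), ← Real.norm_eq_abs, ← Complex.norm_real]
      push_cast
      rfl))
  have hk : ∀ᵐ x ∂μ, ∀ k, ∏ i, f i ((T i)^[k] x) =
      (∏ i, c i) * ∏ i, f' i ((T i)^[k] x) := by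
    have : ∀ᵐ x ∂μ, ∀ k i, f i ((T i)^[k] x) = c i * f' i ((T i)^[k] x) :=
      ae_all_iff.2 fun k => ae_all_iff.2 fun i =>
        ((hT i).iterate k).quasiMeasurePreserving.ae_eq_comp (he i)
    filter_upwards [this] with x hx k
    simp only [hx, Finset.prod_mul_distrib]
  refine ⟨fun x => (∏ i, c i) * G x, (Lp.memLp G).const_mul _,
    tendsto_eLpNorm h1 _ fun N => ?_, tendsto_eLpNorm h2 _ fun N => ?_⟩
  · filter_upwards [hk, coe_avg (Finset.range N) (N : ℝ)⁻¹ (Nat.nth p) F _ hF] with x h3 h4
    rw [h4]
    simp only [h3, ← Finset.mul_sum]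
    ring
  · filter_upwards [hk, coe_avg (Finset.Icc 1 N) (N : ℝ)⁻¹ id F _ hF] with x h3 h4
    simp only [id] at h4
    rw [h4]
    simp only [h3, ← Finset.mul_sum]
    ring

end Pool.Agent.MP_154433_an.T4S

end
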