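import Pool.Agent.MP_154433_an.t4s.Basic
import Pool.Agent.MP_154433_an.t3s.Good

/-! Row Good: the structured factor is good. -/

set_option autoImplicit false
set_option linter.unusedVariables false

open MeasureTheory ProbabilityTheory Filter Topology Function
open scoped BigOperators ComplexConjugate InnerProductSpace

noncomputable section

namespace Pool.Agent.MP_154433_an.T4S

open SG (ABM)
open T3S (B1 MB1 Bd norm_prod_le_one)
open T3S.GoodR (MB V V_of_sq clip rep prod_bd)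

namespace GoodR

variable {X : Type} [m0 : MeasurableSpace X] {μ : Measure X} {l : ℕ} {A : Gm l → X → X}

lemma mb_tz (hA : Act μ A) {f : X → ℂ} (hf : MB f) (v : Gm l) : MB fun x => f (A v x) := by
  obtain ⟨hf, C, h0, hC⟩ := hf
  exact ⟨hf.comp (hA.meas v), C, h0, fun x => hC _⟩

omit m0 in
/-- the average as a linear function of one slot -/
def op (A : Gm l → X → X) (w : ℕ → ℕ → ℝ) (a : Gm l) (R : ℕ → X → ℂ) (g : X → ℂ) (M : ℕ)
    (x : X) : ℂ :=
  ∑ d ∈ Finset.range M, (w M d : ℂ) * (g (A ((d : ℤ) • a) x) * R d x)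

section Slot

variable [IsProbabilityMeasure μ] {w : ℕ → ℕ → ℝ} {a : Gm l} {R : ℕ → X → ℂ} {K : ℝ}

omit [IsProbabilityMeasure μ] in
lemma op_MB (hA : Act μ A)
    (hK : 0 ≤ K) (hR : ∀ d, Measurable (R d)) (hb : ∀ d x, ‖R d x‖ ≤ K) {g : X → ℂ}
    (hg : MB g) (M : ℕ) : MB (op A w a R g M) :=
  MB.sum _ fun d _ => (MB.const _).mul ((mb_tz hA hg _).mul ⟨hR d, K, hK, hb d⟩)

lemma op_int (hA : Act μ A) (hK : 0 ≤ K) (hb : ∀ d x, ‖R d x‖ ≤ K) {g : X → ℂ}
    (hg : MB g) (M : ℕ) : ∫ x, ‖op A w a R g M x‖ ∂μ ≤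
      (∑ d ∈ Finset.range M, |w M d|) * (K * ∫ x, ‖g x‖ ∂μ) := by
  have hi : ∀ d ∈ Finset.range M,
      Integrable (fun x => |w M d| * (K * ‖g (A ((d : ℤ) • a) x)‖)) μ := fun d _ =>
    (((mb_tz hA hg _).intn μ).const_mul K).const_mul _
  have h1 : ∫ x, ‖op A w a R g M x‖ ∂μ ≤
      ∫ x, ∑ d ∈ Finset.range M, |w M d| * (K * ‖g (A ((d : ℤ) • a) x)‖) ∂μ := by
    refine integral_mono_of_nonneg (Eventually.of_forall fun x => norm_nonneg _)
      (integrable_finsetSum _ hi) (Eventually.of_forall fun x => ?_)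
    refine (norm_sum_le _ _).trans (Finset.sum_le_sum fun d _ => ?_)
    rw [norm_mul, norm_mul, Complex.norm_real, Real.norm_eq_abs, mul_comm K]
    exact mul_le_mul_of_nonneg_left (mul_le_mul_of_nonneg_left (hb d x) (norm_nonneg _))
      (abs_nonneg _)
  refine h1.trans (le_of_eq ?_)
  rw [integral_finsetSum _ hi, Finset.sum_mul]
  refine Finset.sum_congr rfl fun d _ => ?_
  rw [integral_const_mul, integral_const_mul,
    hA.integral ((d : ℤ) • a) (f := fun x => ‖g x‖) hg.1.norm.aestronglyMeasurable]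

omit m0 [IsProbabilityMeasure μ] in
lemma op_add (g g' : X → ℂ) (M : ℕ) (x : X) :
    op A w a R (fun x => g x + g' x) M x = op A w a R g M x + op A w a R g' M x := by
  simp only [op, ← Finset.sum_add_distrib]
  exact Finset.sum_congr rfl fun d _ => by ring

omit m0 [IsProbabilityMeasure μ] in
lemma op_mul (c : ℂ) (g : X → ℂ) (M : ℕ) (x : X) :
    op A w a R (fun x => c * g x) M x = c * op A w a R g M x := by
  simp only [op, Finset.mul_sum]
  exact Finset.sum_congr rfl fun d _ => by ring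

lemma int_add (hA : Act μ A)
    (hK : 0 ≤ K) (hR : ∀ d, Measurable (R d)) (hb : ∀ d x, ‖R d x‖ ≤ K) {g g' : X → ℂ}
    (hg : MB g) (hg' : MB g') (M : ℕ) : ∫ x, ‖op A w a R (fun x => g x + g' x) M x‖ ∂μ ≤
      ∫ x, ‖op A w a R g M x‖ ∂μ + ∫ x, ‖op A w a R g' M x‖ ∂μ := by
  have h1 := (op_MB (w := w) (a := a) hA hK hR hb hg M).intn μ
  have h2 := (op_MB (w := w) (a := a) hA hK hR hb hg' M).intn μ
  rw [← integral_add h1 h2]
  refine integral_mono_of_nonneg (Eventually.of_forall fun x => norm_nonneg _) (h1.add h2)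
    (Eventually.of_forall fun x => ?_)
  show ‖op A w a R (fun x => g x + g' x) M x‖ ≤ _
  rw [op_add]
  exact norm_add_le _ _

lemma V_add (hA : Act μ A)
    (hK : 0 ≤ K) (hR : ∀ d, Measurable (R d)) (hb : ∀ d x, ‖R d x‖ ≤ K) {g g' : X → ℂ}
    (hg : MB g) (hg' : MB g') (h : V μ (op A w a R g)) (h' : V μ (op A w a R g')) :
    V μ (op A w a R fun x => g x + g' x) := by
  have h3 := h.add h'
  rw [add_zero] at h3
  exact squeeze_zero (fun M => integral_nonneg fun x => norm_nonneg _)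
    (fun M => int_add hA hK hR hb hg hg' M) h3

omit [IsProbabilityMeasure μ] in
lemma V_mul (c : ℂ) {g : X → ℂ} (h : V μ (op A w a R g)) : V μ (op A w a R fun x => c * g x) := by
  have h3 := h.const_mul ‖c‖
  rw [mul_zero] at h3
  refine h3.congr fun M => ?_
  simp only [op_mul, norm_mul, integral_const_mul]

lemma V_apx (hA : Act μ A) (hw : Bd w) (hK : 0 ≤ K) (hR : ∀ d, Measurable (R d))
    (hb : ∀ d x, ‖R d x‖ ≤ K) {g : X → ℂ} (hg : MB g)
    (h : ∀ ε : ℝ, 0 < ε → ∃ g', MB g' ∧ V μ (op A w a R g') ∧ ∫ x, ‖g x - g' x‖ ∂μ ≤ ε) :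
    V μ (op A w a R g) := by
  refine tendsto_order.2 ⟨fun c hc => Eventually.of_forall fun M =>
    hc.trans_le (integral_nonneg fun x => norm_nonneg _), fun c hc => ?_⟩
  obtain ⟨g', hg', hV, hε⟩ := h (c / (2 * (3 * K + 1))) (by positivity)
  filter_upwards [hw, (tendsto_order.1 hV).2 (c / 2) (by positivity)] with M h1 h2
  have e : g = fun x => g' x + (g x - g' x) := funext fun x => by ring
  have h3 := int_add (w := w) (a := a) hA hK hR hb hg' (hg.sub hg') M
  rw [← e] at h3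
  have h4 := op_int (w := w) (a := a) hA hK hb (hg.sub hg') M
  have h5 : (∑ d ∈ Finset.range M, |w M d|) * (K * ∫ x, ‖g x - g' x‖ ∂μ) ≤
      3 * (K * (c / (2 * (3 * K + 1)))) :=
    mul_le_mul h1 (mul_le_mul_of_nonneg_left hε hK)
      (mul_nonneg hK (integral_nonneg fun x => norm_nonneg _)) (by norm_num)
  have h6 : 3 * (K * (c / (2 * (3 * K + 1)))) ≤ c / 2 := by
    rw [← mul_assoc, mul_div_assoc', div_le_div_iff₀ (by positivity) (by norm_num)]
    nlinarith
  linarith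

lemma slot (hA : Act μ A) (hw : Bd w) (hK : 0 ≤ K) (hR : ∀ d, Measurable (R d))
    (hb : ∀ d x, ‖R d x‖ ≤ K) (S : Set (X → ℝ)) (h1 : (1 : X → ℝ) ∈ S)
    (hm : ∀ φ ∈ S, ∀ φ' ∈ S, φ * φ' ∈ S) (hS : ∀ φ ∈ S, Measurable φ ∧ ∃ C : ℝ, ∀ x, |φ x| ≤ C)
    (hV : ∀ φ ∈ S, V μ (op A w a R fun x => (φ x : ℂ))) {g : X → ℂ} (hg : MB g)
    (hB : AEStronglyMeasurable[⨆ φ ∈ S, MeasurableSpace.comap φ inferInstance] g μ) :
    V μ (op A w a R g) := by
  have hsp : ∀ φ ∈ Submodule.span ℝ S, V μ (op A w a R fun x => (φ x : ℂ)) := by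
    intro φ hφ
    induction hφ using Submodule.span_induction with
    | mem x h => exact hV x h
    | zero =>
      have := V_mul 0 (hV 1 h1)
      simpa using this
    | add f g hf hg ihf ihg =>
      have := V_add hA hK hR hb (MB.ofReal (SG.Dens.span_bdd hS hf))
        (MB.ofReal (SG.Dens.span_bdd hS hg)) ihf ihg
      simpa using this
    | smul c f hf ihf =>
      have := V_mul (c : ℂ) ihf
      simpa using this
  have hre : ∀ ψ : X → ℝ, (Measurable ψ ∧ ∃ C : ℝ, ∀ x, |ψ x| ≤ C) →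
      AEStronglyMeasurable[⨆ φ ∈ S, MeasurableSpace.comap φ inferInstance] ψ μ →
      V μ (op A w a R fun x => (ψ x : ℂ)) := by
    intro ψ hψ hψB
    refine V_apx hA hw hK hR hb (MB.ofReal hψ) fun ε hε => ?_
    obtain ⟨C, hC⟩ := hψ.2
    obtain ⟨φ, hφ, hlt⟩ := SG.Dens.partB h1 hm hS μ ψ ⟨hψB, C, Eventually.of_forall hC⟩ ε hε
    refine ⟨fun x => (φ x : ℂ), MB.ofReal (SG.Dens.span_bdd hS hφ), hsp φ hφ, ?_⟩
    refine le_of_eq_of_le (integral_congr_ae (Eventually.of_forall fun x => ?_)) hlt.le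
    show ‖(ψ x : ℂ) - (φ x : ℂ)‖ = |ψ x - φ x|
    rw [← Complex.ofReal_sub, Complex.norm_real, Real.norm_eq_abs]
  obtain ⟨C, h0, hC⟩ := hg.2
  have b1 : Measurable (fun x => (g x).re) ∧ ∃ C : ℝ, ∀ x, |(g x).re| ≤ C :=
    ⟨Complex.measurable_re.comp hg.1, C, fun x => (Complex.abs_re_le_norm _).trans (hC x)⟩
  have b2 : Measurable (fun x => (g x).im) ∧ ∃ C : ℝ, ∀ x, |(g x).im| ≤ C :=
    ⟨Complex.measurable_im.comp hg.1, C, fun x => (Complex.abs_im_le_norm _).trans (hC x)⟩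
  have v1 := hre _ b1 (Complex.continuous_re.comp_aestronglyMeasurable hB)
  have v2 := hre _ b2 (Complex.continuous_im.comp_aestronglyMeasurable hB)
  have v3 := V_add hA hK hR hb (MB.ofReal b1) ((MB.const Complex.I).mul (MB.ofReal b2)) v1
    (V_mul Complex.I v2)
  have e : g = fun x => ((g x).re : ℂ) + Complex.I * ((g x).im : ℂ) := funext fun x => by
    rw [mul_comm, Complex.re_add_im]
  rw [← e] at v3
  exact v3

end Slot

omit m0 in
lemma wavg_update {ι : Type} [Fintype ι] [DecidableEq ι] (w : ℕ → ℕ → ℝ) (r : ι → Gm l)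
    (f : ι → X → ℂ) (i : ι) (g : X → ℂ) : wavg A w r (update f i g) =
      op A w (r i) (fun d x => ∏ j ∈ Finset.univ.erase i, f j (A ((d : ℤ) • r j) x)) g := by
  funext M x
  refine Finset.sum_congr rfl fun d _ => ?_
  rw [← Finset.mul_prod_erase _ _ (Finset.mem_univ i), update_self]
  congr 2
  exact Finset.prod_congr rfl fun j hj => by rw [update_of_ne (Finset.ne_of_mem_erase hj)]

/-- a product of dual functions -/
def Shape (k : ℕ) (μ : Measure X) (A : Gm l → X → X) (q : ℤ) (φ : X → ℝ) : Prop :=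
  Measurable φ ∧ (∀ x, |φ x| ≤ 1) ∧ ∃ (κ : Type) (_ : Fintype κ) (D : κ → X → ℂ),
    (∀ t, D t ∈ DD (k + 1) μ A q) ∧ ∀ x, (φ x : ℂ) = ∏ t, D t x

lemma shape (k : ℕ) (q : ℤ) {φ : X → ℝ} (h : φ ∈ Submonoid.closure (Gen k μ A q)) :
    Shape k μ A q φ := by
  induction h using Submonoid.closure_induction with
  | mem φ hD =>
    refine ⟨?_, fun x => ?_, Unit, inferInstance, fun _ x => (φ x : ℂ), fun _ => hD,
      fun x => by simp⟩
    · exact Complex.measurable_re.comp hD.1.1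
    · have := hD.1.2 x
      rwa [Complex.norm_real, Real.norm_eq_abs] at this
  | one =>
    exact ⟨measurable_const, fun x => by simp, Empty, inferInstance, fun t => t.elim,
      fun t => t.elim, fun x => by simp⟩
  | mul φ φ' _ _ h h' =>
    obtain ⟨a1, a2, κ, _, D, a5, a6⟩ := h
    obtain ⟨b1, b2, κ', _, D', b5, b6⟩ := h'
    refine ⟨a1.mul b1, fun x => ?_, κ ⊕ κ', inferInstance, Sum.elim D D', ?_, fun x => ?_⟩
    · rw [Pi.mul_apply, abs_mul]
      exact mul_le_one₀ (a2 x) (abs_nonneg _) (b2 x)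
    · rintro (t | t)
      · exact a5 t
      · exact b5 t
    · rw [Pi.mul_apply, Complex.ofReal_mul, a6, b6, Fintype.prod_sum_type]
      simp only [Sum.elim_inl, Sum.elim_inr]

lemma wavg_MB (hA : Act μ A) {ι : Type} [Fintype ι] (w : ℕ → ℕ → ℝ) (r : ι → Gm l)
    {f : ι → X → ℂ} (hf : ∀ i, MB1 (f i)) (M : ℕ) : MB (wavg A w r f M) :=
  ⟨hA.wavg_meas w r (fun i => (hf i).1) M, _, Finset.sum_nonneg fun d _ => abs_nonneg _,
    wavg_norm_le A w r (fun i => (hf i).2) M⟩

lemma base [IsProbabilityMeasure μ] (h : ProdS) {k : ℕ} {q : ℤ} {w : ℕ → ℕ → ℝ}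
    (hs : Str k l q w) (hw : Bd w) (hA : Act μ A) {ι : Type} [Fintype ι] (r : ι → Gm l)
    (φ : ι → X → ℝ) (hφ : ∀ i, Shape k μ A q (φ i)) :
    V μ (wavg A w r fun i x => (φ i x : ℂ)) := by
  choose a1 a2 κ inst D a5 a6 using hφ
  have h1 := V_of_sq (μ := μ)
    (fun M => wavg_MB hA w (fun s : Σ i, κ i => r s.1) (fun s => (a5 s.1 s.2).1) M)
    (h k l q w hs hw X μ A hA (Σ i, κ i) (fun s => r s.1) (fun s => D s.1 s.2)
      fun s => a5 s.1 s.2)
  have e : (wavg A w r fun i x => (φ i x : ℂ)) =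
      wavg A w (fun s : Σ i, κ i => r s.1) fun s => D s.1 s.2 := by
    funext M x
    simp only [wavg, a6, Fintype.prod_sigma]
  rw [e]
  exact h1

lemma all [IsProbabilityMeasure μ] (h : ProdS) {k : ℕ} {q : ℤ} {w : ℕ → ℕ → ℝ}
    (hs : Str k l q w) (hw : Bd w) (hA : Act μ A) {ι : Type} [Fintype ι] (r : ι → Gm l)
    (s : Finset ι) :
    ∀ f : ι → X → ℂ, (∀ i, MB (f i)) → (∀ i ∈ s, AEStronglyMeasurable[B0 k μ A q] (f i) μ) →
      (∀ i ∉ s, ∃ φ ∈ Submonoid.closure (Gen k μ A q), f i = fun x => (φ x : ℂ)) →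
      V μ (wavg A w r f) := by
  classical
  induction s using Finset.induction_on with
  | empty =>
    intro f _ _ h3
    choose φ hφ e using fun i => h3 i (Finset.notMem_empty i)
    rw [show f = fun i x => (φ i x : ℂ) from funext e]
    exact base h hs hw hA r φ fun i => shape k q (hφ i)
  | insert a s ha ih =>
    intro f h1 h2 h3
    obtain ⟨K, hK, hb⟩ := prod_bd (Finset.univ.erase a) h1
    have hS : ∀ φ ∈ (Submonoid.closure (Gen k μ A q) : Set (X → ℝ)),
        Measurable φ ∧ ∃ C : ℝ, ∀ x, |φ x| ≤ C := fun φ hφ =>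
      ⟨(shape k q hφ).1, 1, (shape k q hφ).2.1⟩
    rw [← update_eq_self a f, wavg_update]
    refine slot (R := fun d x => ∏ j ∈ Finset.univ.erase a, f j (A ((d : ℤ) • r j) x)) hA hw hK
      (fun d => Finset.measurable_prod _ fun j _ => (h1 j).1.comp (hA.meas _))
      (fun d x => hb _) (Submonoid.closure (Gen k μ A q) : Set (X → ℝ)) (one_mem _)
      (fun φ hφ φ' hφ' => mul_mem hφ hφ') hS (fun φ hφ => ?_) (h1 a) ?_
    · rw [← wavg_update]
      refine ih _ (fun i => ?_) (fun i hi => ?_) fun i hi => ?_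
      · by_cases e : i = a
        · rw [e, update_self]
          exact MB.ofReal (hS φ hφ)
        · rw [update_of_ne e]
          exact h1 i
      · rw [update_of_ne (ne_of_mem_of_not_mem hi ha)]
        exact h2 i (Finset.mem_insert_of_mem hi)
      · by_cases e : i = a
        · rw [e, update_self]
          exact ⟨φ, hφ, rfl⟩
        · rw [update_of_ne e]
          exact h3 i fun hi' => (Finset.mem_insert.1 hi').elim e hi
    · refine (h2 a (Finset.mem_insert_self _ _)).mono ?_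
      exact iSup₂_le fun φ hφ => le_iSup₂_of_le φ (Submonoid.subset_closure hφ) le_rfl

end GoodR

open GoodR in
theorem good (h : ProdS) : GoodS := by
  intro k l q w hs hw X m0 μ _ A hA ι _ r f hf
  have hB : B0 k μ A q ≤ m0 := iSup₂_le fun φ hφ =>
    (shape k q (Submonoid.subset_closure hφ)).1.comap_le
  choose g h1 h2 h3 using fun i => rep _ hB (hf i)
  have hV := all h hs hw hA r Finset.univ g h1 (fun i _ => h2 i)
    fun i hi => absurd (Finset.mem_univ i) hi
  obtain ⟨K, hK, hb⟩ := prod_bd Finset.univ h1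
  have h4 : ∀ᵐ x ∂μ, ∀ (i : ι) (v : Gm l), f i (A v x) = g i (A v x) :=
    ae_all_iff.2 fun i => ae_all_iff.2 fun v => (hA.mp v).quasiMeasurePreserving.ae (h3 i)
  have h5 := hV.const_mul (3 * K)
  rw [mul_zero] at h5
  refine squeeze_zero' (Eventually.of_forall fun M => integral_nonneg fun x => sq_nonneg _) ?_ h5
  filter_upwards [hw] with M hM
  have hn : ∀ x, ‖wavg A w r g M x‖ ≤ 3 * K := fun x => by
    refine (norm_sum_le _ _).trans (le_trans (Finset.sum_le_sum fun d _ => ?_)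
      ((Finset.sum_mul _ _ K).ge.trans (mul_le_mul_of_nonneg_right hM hK)))
    rw [norm_mul, Complex.norm_real, Real.norm_eq_abs]
    exact mul_le_mul_of_nonneg_left (hb _) (abs_nonneg _)
  have hi : Integrable (fun x => ‖wavg A w r g M x‖) μ :=
    MB.intn ⟨hA.wavg_meas w r (fun i => (h1 i).1) M, 3 * K, by positivity, hn⟩ μ
  rw [← integral_const_mul]
  refine integral_mono_of_nonneg (Eventually.of_forall fun x => sq_nonneg _) (hi.const_mul _) ?_
  filter_upwards [h4] with x hx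
  have e : wavg A w r f M x = wavg A w r g M x := by simp only [wavg, hx]
  rw [e, sq]
  exact mul_le_mul_of_nonneg_right (hn x) (norm_nonneg _)

end Pool.Agent.MP_154433_an.T4S

end
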