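import Pool.Agent.MP_154433_an.t4s.Basic

/-! Row Inn: long line averages are dominated by box averages. -/

set_option autoImplicit false
set_option linter.unusedVariables false

open MeasureTheory ProbabilityTheory Filter Topology Function
open scoped BigOperators ComplexConjugate InnerProductSpace

noncomputable section

namespace Pool.Agent.MP_154433_an.T4S

open T3S (B1 MB1)

namespace Inn

variable {l : ℕ} {X : Type} [MeasurableSpace X] {μ : Measure X} {A : Gm l → X → X}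

/-- composition with one map of the action -/
def V (hA : Act μ A) (v : Gm l) : Lp ℂ 2 μ →ₗᵢ[ℂ] Lp ℂ 2 μ :=
  Lp.compMeasurePreservingₗᵢ ℂ (A v) (hA.mp v)

lemma V_ae (hA : Act μ A) (v : Gm l) (f : Lp ℂ 2 μ) :
    (V hA v f : X → ℂ) =ᵐ[μ] fun x => f (A v x) :=
  Lp.coeFn_compMeasurePreserving f (hA.mp v)

lemma V_add (hA : Act μ A) (v w : Gm l) (f : Lp ℂ 2 μ) : V hA (v + w) f = V hA w (V hA v f) := by
  refine Lp.ext ?_
  have h1 := (hA.mp w).quasiMeasurePreserving.ae_eq_comp (V_ae hA v f)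
  filter_upwards [V_ae hA (v + w) f, V_ae hA w (V hA v f), h1] with x e1 e2 e3
  rw [e1, e2, hA.add]
  exact e3.symm

lemma V_zero (hA : Act μ A) (f : Lp ℂ 2 μ) : V hA 0 f = f := by
  refine Lp.ext ?_
  filter_upwards [V_ae hA 0 f] with x e1
  rw [e1, hA.zero]

lemma V_iter (hA : Act μ A) (u : Gm l) (f : Lp ℂ 2 μ) (k : ℕ) :
    (V hA u)^[k] f = V hA ((k : ℤ) • u) f := by
  induction k with
  | zero => simp [V_zero]
  | succ k ih =>
    rw [Function.iterate_succ_apply', ih, ← V_add]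
    congr 2
    push_cast
    rw [add_smul, one_smul]

/-- the average over a family of steps -/
def av (hA : Act μ A) (F : Fam l) (f : Lp ℂ 2 μ) : Lp ℂ 2 μ :=
  ((Fintype.card F.ι : ℂ))⁻¹ • ∑ h : F.ι, V hA (F.a h) f

lemma inner_V (hA : Act μ A) {g : X → ℂ} (hg : MB1 g) {G : Lp ℂ 2 μ} (hG : (G : X → ℂ) =ᵐ[μ] g)
    (v w : Gm l) : ⟪V hA v G, V hA w G⟫_ℂ = ∫ x, ddX A (w - v) g x ∂μ := by
  rw [← hA.integral v (hA.dd hg (w - v)).1.aestronglyMeasurable, L2.inner_def]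
  refine integral_congr_ae ?_
  have h1 := (hA.mp v).quasiMeasurePreserving.ae_eq_comp hG
  have h2 := (hA.mp w).quasiMeasurePreserving.ae_eq_comp hG
  filter_upwards [V_ae hA v G, V_ae hA w G, h1, h2] with x e1 e2 e3 e4
  simp only [Function.comp_apply] at e3 e4
  rw [e1, e2, e3, e4, ddX, ← hA.add, sub_add_cancel]
  simp

lemma QX_eq (hA : Act μ A) {g : X → ℂ} (hg : MB1 g) {G : Lp ℂ 2 μ} (hG : (G : X → ℂ) =ᵐ[μ] g)
    (F : Fam l) : QX μ A [F] g = ‖av hA F G‖ ^ 2 := by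
  rw [← @inner_self_eq_norm_sq ℂ, av, inner_smul_left, inner_smul_right, sum_inner]
  simp only [inner_sum, inner_V hA hg hG, QX, Fintype.expect_eq_sum_div_card]
  rw [← Finset.sum_div, div_div, ← mul_assoc]
  have : conj ((Fintype.card F.ι : ℂ))⁻¹ * ((Fintype.card F.ι : ℂ))⁻¹ =
      ((((Fintype.card F.ι : ℝ) * (Fintype.card F.ι : ℝ))⁻¹ : ℝ) : ℂ) := by
    rw [map_inv₀, Complex.conj_natCast]
    push_cast
    rw [mul_inv]
  rw [this, RCLike.re_to_complex, Complex.re_ofReal_mul, div_eq_inv_mul]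
  simp only [Complex.re_sum]

lemma av_ln (hA : Act μ A) (u : Gm l) (G : Lp ℂ 2 μ) (H : ℕ) :
    av hA (ln u H) G =
      birkhoffAverage ℂ (V hA u).toContinuousLinearMap _root_.id H G := by
  have h1 : ∑ h : Fin H, V hA (((h : ℕ) : ℤ) • u) G =
      ∑ k ∈ Finset.range H, (V hA u)^[k] G := by
    rw [Finset.sum_range]
    exact Finset.sum_congr rfl fun h _ => (V_iter hA u G h).symm
  have h2 : av hA (ln u H) G =
      ((Fintype.card (Fin H) : ℂ))⁻¹ • ∑ h : Fin H, V hA (((h : ℕ) : ℤ) • u) G := rfl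
  rw [h2, h1, Fintype.card_fin]
  rfl

lemma le_av (hA : Act μ A) (F : Fam l) [Nonempty F.ι] (G P : Lp ℂ 2 μ)
    (hP : ∀ h, V hA (F.a h) P = P) (hG : ⟪P, G⟫_ℂ = ⟪P, P⟫_ℂ) : ‖P‖ ^ 2 ≤ ‖av hA F G‖ ^ 2 := by
  have h1 : ⟪P, av hA F G⟫_ℂ = ⟪P, P⟫_ℂ := by
    have : ∀ h, ⟪P, V hA (F.a h) G⟫_ℂ = ⟪P, P⟫_ℂ := fun h => by
      rw [← hG, ← (V hA (F.a h)).inner_map_map P G, hP]
    rw [av, inner_smul_right, inner_sum]
    simp only [this, Finset.sum_const, Finset.card_univ, nsmul_eq_mul]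
    rw [← mul_assoc, inv_mul_cancel₀ (by exact_mod_cast Fintype.card_ne_zero), one_mul]
  have h2 : ‖P‖ * ‖P‖ ≤ ‖P‖ * ‖av hA F G‖ := by
    have := norm_inner_le_norm (𝕜 := ℂ) P (av hA F G)
    rwa [h1, inner_self_eq_norm_sq_to_K, norm_pow, RCLike.norm_ofReal, abs_norm, sq] at this
  rcases (norm_nonneg P).eq_or_lt with h0 | h0
  · rw [← h0]
    simp
  · exact pow_le_pow_left₀ h0.le (le_of_mul_le_mul_left h2 h0) 2

end Inn

open Inn in
theorem inn (h : InvFS) : InnS := by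
  intro l X _ μ _ A hA u q hD K hK g hg ε hε
  have hm : MemLp g 2 μ := MemLp.of_bound hg.1.aestronglyMeasurable 1 (ae_of_all _ hg.2)
  have hG : ((hm.toLp g : Lp ℂ 2 μ) : X → ℂ) =ᵐ[μ] g := hm.coeFn_toLp
  have ht := ContinuousLinearMap.tendsto_birkhoffAverage_orthogonalProjection
    (V hA u).toContinuousLinearMap (V hA u).norm_toContinuousLinearMap_le (hm.toLp g)
  set P := (((V hA u).toContinuousLinearMap.eqLocus
    (1 : Lp ℂ 2 μ →L[ℂ] Lp ℂ 2 μ)).orthogonalProjectionOnto (hm.toLp g)) with hPd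
  have hfix : V hA u P.1 = P.1 := P.2
  have hin : ⟪P.1, hm.toLp g⟫_ℂ = ⟪P.1, P.1⟫_ℂ := by
    rw [← Submodule.inner_orthogonalProjectionOnto_eq_of_mem_left P (hm.toLp g)]
    rfl
  have hq : ∀ v, V hA (q • v) P.1 = P.1 := fun v => by
    refine Lp.ext ((V_ae hA _ _).trans ?_)
    refine h X μ (A u) (A (q • v)) (hA.mp _) (hA.mp _) (fun S hS hu => hD S hS hu v) _
      (Lp.aestronglyMeasurable P.1) ?_
    have := V_ae hA u P.1
    rw [hfix] at this
    exact this.symm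
  have : Nonempty (cu l q K).ι := ⟨fun _ => ⟨0, hK⟩⟩
  have hle := le_av hA (cu l q K) (hm.toLp g) P.1 (fun h => hq _) hin
  have ht2 := (ht.norm.pow 2).eventually (gt_mem_nhds (lt_add_of_pos_right _ hε))
  filter_upwards [ht2] with H hH
  rw [QX_eq hA hg hG, QX_eq hA hg hG, av_ln]
  exact hH.le.trans (by linarith)

end Pool.Agent.MP_154433_an.T4S

end
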