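import Mathlib
import Pool.Agent.MP_154433_an.t4s.Basic

/-! The box average is a correlation with a block; invariance of functions from invariance of
sets. -/

set_option autoImplicit false
set_option linter.unusedVariables false

open MeasureTheory ProbabilityTheory Filter Topology Function
open scoped BigOperators ComplexConjugate InnerProductSpace

noncomputable section

namespace Pool.Agent.MP_154433_an.T4S

open T3S (B1 MB1 norm_exp_le_of norm_prod_le_one meas_exp conj_exp re_exp)

namespace Link

lemma exp_cons {n : ℕ} {α : Type} [Fintype α] (F : (Fin (n + 1) → α) → ℂ) :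
    𝔼 h, F h = 𝔼 a, 𝔼 h : Fin n → α, F (Fin.cons a h) := by
  rw [← Finset.expect_product' _ _ fun a (h : Fin n → α) => F (Fin.cons a h),
    Finset.univ_product_univ]
  exact (Fintype.expect_equiv (Fin.consEquiv fun _ => α) _ _ fun _ => rfl).symm

lemma dif_cons {n l H : ℕ} (a a' : Fin l → Fin H) (h h' : Fin n → Fin l → Fin H) :
    dif (Fin.cons a h : Fin (n + 1) → Fin l → Fin H) (Fin.cons a' h') =
      Fin.cons (pt a' - pt a) (dif h h') := by
  funext j
  refine Fin.cases rfl (fun j => rfl) j

lemma blk_cons {X : Type} {n l : ℕ} (A : Gm l → X → X) (q : ℤ) (H : ℕ) (g : X → ℂ)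
    (γ : Gm l → Fin n → (Fin n → Gm l) → X → ℂ) (x : X) :
    blk A q H (Fin.cons (fun _ y => conj (g y))
      (fun j τ y => conj (γ (τ 0) j (Fin.tail τ) y)) :
        Fin (n + 1) → (Fin (n + 1) → Gm l) → X → ℂ) x =
    𝔼 a : Fin l → Fin H, 𝔼 a' : Fin l → Fin H, conj (g (A (q • (pt a' - pt a)) x) *
      blk A q H (γ (pt a' - pt a)) x) := by
  rw [blk, exp_cons]
  refine Finset.expect_congr rfl fun a _ => ?_
  simp only [exp_cons (α := Fin l → Fin H)]
  rw [Finset.expect_comm]
  refine Finset.expect_congr rfl fun a' _ => ?_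
  simp only [blk, Finset.mul_expect, conj_exp]
  refine Finset.expect_congr rfl fun h _ => Finset.expect_congr rfl fun h' _ => ?_
  rw [Fin.prod_univ_succ, map_mul, map_prod, dif_cons]
  simp only [Fin.cons_zero, Fin.cons_succ, ← Fin.cons_update, Fin.tail_cons]

end Link

open Link in
theorem link : LinkS := by
  intro l X _ μ _ A hA q H n
  induction n with
  | zero => exact fun g hg => ⟨Fin.elim0, fun i => i.elim0, by simp [QX, blk]⟩
  | succ n ih =>
    intro g hg
    choose γ h1 h2 using fun t : Gm l => ih _ (hA.dd hg (q • t))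
    refine ⟨Fin.cons (fun _ y => conj (g y)) fun j τ y => conj (γ (τ 0) j (Fin.tail τ) y),
      fun i τ => Fin.cases hg.cj (fun j => (h1 _ _ _).cj) i, ?_⟩
    have m : ∀ t : Gm l, MB1 fun x => conj (ddX A (q • t) g x * blk A q H (γ t) x) := fun t =>
      ((hA.dd hg _).mul (hA.blk_MB1 _ H (h1 t))).cj
    have e : ∀ x t, g x * conj (g (A (q • t) x) * blk A q H (γ t) x) =
        conj (ddX A (q • t) g x * blk A q H (γ t) x) := fun x t => by
      simp only [ddX, map_mul, RCLike.conj_conj]
      ring
    rw [List.replicate_succ, QX_cu]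
    simp only [h2, blk_cons, Finset.mul_expect, e]
    rw [T3S.integral_exp, re_exp]
    · refine Finset.expect_congr rfl fun a _ => ?_
      rw [T3S.integral_exp _ fun a' _ => (m _).integrable μ, re_exp]
      exact Finset.expect_congr rfl fun a' _ => by rw [integral_conj, Complex.conj_re]
    · exact fun a _ => MB1.integrable ⟨meas_exp _ fun a' _ => (m _).1,
        fun x => norm_exp_le_of zero_le_one fun a' _ => (m _).2 x⟩ μ

theorem invF : InvFS := by
  intro X _ μ S T hS hT h f hf hfS
  set g := hf.mk f with hg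
  have hm : Measurable g := hf.stronglyMeasurable_mk.measurable
  have hfg : f =ᵐ[μ] g := hf.ae_eq_mk
  have hgS : (fun x => g (S x)) =ᵐ[μ] g :=
    ((hS.quasiMeasurePreserving.ae_eq_comp hfg).symm.trans hfS).trans hfg
  have hgT : (fun x => g (T x)) =ᵐ[μ] g := by
    refine Filter.EventuallyEq.of_forall_separating_preimage MeasurableSet fun U hU => ?_
    refine h (g ⁻¹' U) (hm hU) ?_
    filter_upwards [hgS] with x hx
    change (g (S x) ∈ U) = (g x ∈ U)
    rw [hx]
  exact ((hT.quasiMeasurePreserving.ae_eq_comp hfg).trans hgT).trans hfg.symm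

end Pool.Agent.MP_154433_an.T4S

end
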