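import Pool.Agent.MP_154433_an.t4s.Basic

/-! Row Net: a small family of test sequences controls all products of blocks on the lattice. -/

set_option autoImplicit false
set_option linter.unusedVariables false

open Filter Topology Function
open scoped BigOperators

noncomputable section

namespace Pool.Agent.MP_154433_an.T4S

open T3S (B1 norm_prod_le_one norm_prod_sub_le)

namespace Net

/-- reduction of a lattice point -/
def rd {l : ℕ} (N : ℕ) (m : Gm l) : Fin l → ZMod N := fun i => (m i : ZMod N)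

lemma exp_le {l M C0 : ℕ} [NeZero (C0 * M)] (hC : 1 ≤ C0) (hM : 1 ≤ M) (c : Gm l)
    {F : (Fin l → ZMod (C0 * M)) → ℝ} (hF : ∀ x, 0 ≤ F x) :
    𝔼 n : Fin l → Fin M, F (rd (C0 * M) (pt n + c)) ≤ (C0 : ℝ) ^ l * 𝔼 x, F x := by
  classical
  have h : M ≤ C0 * M := Nat.le_mul_of_pos_left M hC
  have inj : Set.InjOn (fun n : Fin l → Fin M => rd (C0 * M) (pt n + c))
      ((Finset.univ : Finset (Fin l → Fin M)) : Set (Fin l → Fin M)) := by
    intro n _ n' _ e
    funext i
    have e0 := congrFun e i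
    simp only [rd, pt, Pi.add_apply] at e0
    push_cast at e0
    have e1 := (ZMod.natCast_eq_natCast_iff' (n i) (n' i) (C0 * M)).1 (add_right_cancel e0)
    have a1 := (n i).2
    have a2 := (n' i).2
    rw [Nat.mod_eq_of_lt (by omega), Nat.mod_eq_of_lt (by omega)] at e1
    exact Fin.ext e1
  have hMr : (0 : ℝ) < M := by exact_mod_cast hM
  have hCr : (0 : ℝ) < C0 := by exact_mod_cast hC
  rw [Finset.expect_eq_sum_div_card, Finset.expect_eq_sum_div_card, ← Finset.sum_image (f := F) inj,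
    Finset.card_univ, Finset.card_univ, Fintype.card_fun, Fintype.card_fun, ZMod.card,
    Fintype.card_fin, Fintype.card_fin]
  have s1 := Finset.sum_le_sum_of_subset_of_nonneg
    (Finset.subset_univ (Finset.univ.image fun n : Fin l → Fin M => rd (C0 * M) (pt n + c)))
    (f := F) fun x _ _ => hF x
  refine (div_le_div_of_nonneg_right s1 (Nat.cast_nonneg _)).trans (le_of_eq ?_)
  push_cast
  rw [mul_pow]
  field_simp

lemma card_le {M C0 J l K : ℕ} {C1 : ℝ} (hM : 1 ≤ M) (hC : 1 ≤ C0) (h1 : 0 ≤ C1)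
    (hK : (K : ℝ) ≤ Real.exp (C1 * (Real.log ((C0 * M : ℕ) : ℝ) + 1))) :
    ((M ^ l * K ^ J : ℕ) : ℝ) ≤
      Real.exp ((l + J * C1 * (Real.log C0 + 1)) * (Real.log M + 1) ^ 1) := by
  have hM0 : (0 : ℝ) < M := by exact_mod_cast hM
  have hC0 : (0 : ℝ) < C0 := by exact_mod_cast hC
  have a1 : 0 ≤ Real.log M := Real.log_natCast_nonneg _
  have a2 : 0 ≤ Real.log C0 := Real.log_natCast_nonneg _
  have e1 : Real.log ((C0 * M : ℕ) : ℝ) + 1 ≤ (Real.log C0 + 1) * (Real.log M + 1) := by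
    push_cast
    rw [Real.log_mul hC0.ne' hM0.ne']
    nlinarith [mul_nonneg a1 a2]
  have e2 : (K : ℝ) ≤ Real.exp (C1 * ((Real.log C0 + 1) * (Real.log M + 1))) :=
    hK.trans (Real.exp_le_exp.2 (mul_le_mul_of_nonneg_left e1 h1))
  have e3 : (M : ℝ) ≤ Real.exp (Real.log M + 1) := by
    conv_lhs => rw [← Real.exp_log hM0]
    exact Real.exp_le_exp.2 (by linarith)
  push_cast
  refine (mul_le_mul (pow_le_pow_left₀ hM0.le e3 l) (pow_le_pow_left₀ (Nat.cast_nonneg _) e2 J)
    (by positivity) (by positivity)).trans (le_of_eq ?_)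
  rw [← Real.exp_nat_mul, ← Real.exp_nat_mul, ← Real.exp_add]
  congr 1
  ring

lemma box {l M R : ℕ} {r : Gm l} (hR : ∀ i, 1 + |r i| ≤ R) (n : Fin l → Fin M) {d : ℕ}
    (hd : d < M) (i : Fin l) : |(pt n + (d : ℤ) • r) i| ≤ R * M := by
  have a1 : ((n i : ℕ) : ℤ) ≤ M := by exact_mod_cast (n i).2.le
  have a2 : (d : ℤ) ≤ M := by exact_mod_cast hd.le
  simp only [pt, Pi.add_apply, Pi.smul_apply, smul_eq_mul]
  refine (abs_add_le _ _).trans ?_
  rw [abs_mul, Nat.abs_cast, Nat.abs_cast]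
  have a3 := mul_le_mul_of_nonneg_right a2 (abs_nonneg (r i))
  have a4 := mul_le_mul_of_nonneg_right (hR i) (Int.natCast_nonneg M)
  linarith

end Net

open Net in
theorem net (h1 : ApxS) (h2 : CovS) : NetS := by
  classical
  intro k l hk q hq J r ε hε
  obtain ⟨R, hR⟩ : ∃ R : ℕ, ∀ t i, 1 + |r t i| ≤ R := by
    refine ⟨1 + ∑ p : Fin J × Fin l, (r p.1 p.2).natAbs, fun t i => ?_⟩
    have := Finset.single_le_sum (f := fun p : Fin J × Fin l => (r p.1 p.2).natAbs)
      (fun _ _ => Nat.zero_le _) (Finset.mem_univ (t, i))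
    rw [Int.abs_eq_natAbs]
    exact_mod_cast Nat.add_le_add_left this 1
  obtain ⟨C0, hC, hC0⟩ : ∃ C0 : ℕ, 1 ≤ C0 ∧ 2 * ((R : ℤ) + |q|) ≤ C0 := by
    refine ⟨2 * (R + q.natAbs) + 1, by omega, ?_⟩
    rw [Int.abs_eq_natAbs]
    omega
  have hCr : (0 : ℝ) < C0 := by exact_mod_cast hC
  obtain ⟨C1, hC1, hV⟩ := h2 k l ((((C0 : ℝ) ^ l) ^ (k + 1)) ^ 2 ^ (k + 1))
    (ε / (2 * (J + 1) * (C0 : ℝ) ^ l)) (by positivity) (by positivity)
  have key : ∀ M : ℕ, ∃ S : Finset (ℕ → ℂ), (∀ c ∈ S, B1 c) ∧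
      (1 ≤ M → (S.card : ℝ) ≤
        Real.exp ((l + J * C1 * (Real.log C0 + 1)) * (Real.log M + 1) ^ 1)) ∧
      (1 ≤ M → 8 * (J + 1) * ((k + 1) * l) / ε ≤ (M : ℝ) → ∀ (y : ℕ → ℝ) (τ : ℝ),
        (∀ c ∈ S, ‖∑ d ∈ Finset.range M, (y d : ℂ) * c d‖ ≤ τ) →
        ∀ u : Fin J → Gm l → ℂ, (∀ t, u t ∈ CZ (k + 1) l q (M ^ 2)) →
          𝔼 n : Fin l → Fin M,
            ‖∑ d ∈ Finset.range M, (y d : ℂ) * ∏ t, u t (pt n + (d : ℤ) • r t)‖ ≤
            τ + ε * ∑ d ∈ Finset.range M, |y d|) := by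
    intro M
    rcases Nat.eq_zero_or_pos M with rfl | hM
    · exact ⟨∅, by simp, fun h => absurd h (by omega), fun h => absurd h (by omega)⟩
    have : NeZero (C0 * M) := ⟨(Nat.mul_pos hC hM).ne'⟩
    obtain ⟨V, hV1, hV2, hV3⟩ := hV (C0 * M)
    have hMr : (0 : ℝ) < M := by exact_mod_cast hM
    refine ⟨((Finset.univ : Finset (Fin l → Fin M)) ×ˢ Fintype.piFinset fun _ : Fin J => V).image
      fun p d => ∏ t, p.2 t (rd (C0 * M) (pt p.1 + (d : ℤ) • r t)), fun c hc => ?_,
      fun _ => ?_, fun _ hM1 y τ hτ u hu => ?_⟩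
    · obtain ⟨p, hp, rfl⟩ := Finset.mem_image.1 hc
      exact fun d => norm_prod_le_one _ fun t _ =>
        hV1 _ (Fintype.mem_piFinset.1 (Finset.mem_product.1 hp).2 t) _
    · refine le_trans ?_ (card_le (J := J) (l := l) hM hC hC1 hV2)
      have := Finset.card_image_le
        (s := (Finset.univ : Finset (Fin l → Fin M)) ×ˢ Fintype.piFinset fun _ : Fin J => V)
        (f := fun p (d : ℕ) => ∏ t, p.2 t (rd (C0 * M) (pt p.1 + (d : ℤ) • r t)))
      rw [Finset.card_product, Finset.card_univ, Fintype.card_fun, Fintype.card_fin,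
        Fintype.card_fin, Fintype.card_piFinset_const] at this
      exact_mod_cast this
    · choose w hw1 hw2 using fun t => h1 k l hk q R C0 M (M ^ 2) hq hC0
        (Nat.one_le_pow _ _ hM) (u t) (hu t)
      choose v hv1 hv2 using fun t => hV3 (w t) (hw1 t)
      have hδ : (4 * ((k + 1) * l) * M / (M ^ 2 : ℕ) : ℝ) ≤ ε / (2 * (J + 1)) := by
        rw [div_le_iff₀ hε] at hM1
        push_cast
        rw [div_le_div_iff₀ (by positivity) (by positivity)]
        nlinarith
      have step : ∀ n ∈ (Finset.univ : Finset (Fin l → Fin M)),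
          ‖∑ d ∈ Finset.range M, (y d : ℂ) * ∏ t, u t (pt n + (d : ℤ) • r t)‖ ≤
          τ + ∑ d ∈ Finset.range M, |y d| * ∑ t, (ε / (2 * (J + 1)) +
            ‖w t (rd (C0 * M) (pt n + (d : ℤ) • r t)) -
              v t (rd (C0 * M) (pt n + (d : ℤ) • r t))‖) := by
        intro n hn
        have e0 := hτ _ (Finset.mem_image_of_mem _ (Finset.mem_product.2
          (⟨hn, Fintype.mem_piFinset.2 hv1⟩ : (n, v).1 ∈ _ ∧ (n, v).2 ∈ _)))
        have e1 : ∑ d ∈ Finset.range M, (y d : ℂ) * ∏ t, u t (pt n + (d : ℤ) • r t) =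
            ∑ d ∈ Finset.range M, (y d : ℂ) * ∏ t, v t (rd (C0 * M) (pt n + (d : ℤ) • r t)) +
            ∑ d ∈ Finset.range M, (y d : ℂ) * (∏ t, u t (pt n + (d : ℤ) • r t) -
              ∏ t, v t (rd (C0 * M) (pt n + (d : ℤ) • r t))) := by
          rw [← Finset.sum_add_distrib]
          exact Finset.sum_congr rfl fun d _ => by ring
        rw [e1]
        refine (norm_add_le _ _).trans (add_le_add e0 ((norm_sum_le _ _).trans
          (Finset.sum_le_sum fun d hd => ?_)))
        rw [norm_mul, Complex.norm_real, Real.norm_eq_abs]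
        refine mul_le_mul_of_nonneg_left ((norm_prod_sub_le _ (fun t => CZ_B1 (hu t) _)
          fun t => hV1 _ (hv1 t) _).trans (Finset.sum_le_sum fun t _ => ?_)) (abs_nonneg _)
        exact (norm_sub_le_norm_sub_add_norm_sub _ _ _).trans
          (add_le_add ((hw2 t _ (box (hR t) n (Finset.mem_range.1 hd))).trans hδ) le_rfl)
      have hne : (Finset.univ : Finset (Fin l → Fin M)).Nonempty := ⟨fun _ => ⟨0, hM⟩, by simp⟩
      refine (Finset.expect_le_expect step).trans ?_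
      rw [Finset.expect_add_distrib, Finset.expect_const hne, Finset.expect_sum_comm,
        Finset.mul_sum]
      refine add_le_add le_rfl (Finset.sum_le_sum fun d _ => ?_)
      rw [← Finset.mul_expect, Finset.expect_sum_comm, mul_comm ε]
      refine mul_le_mul_of_nonneg_left ?_ (abs_nonneg _)
      have e3 : ∀ t ∈ (Finset.univ : Finset (Fin J)), 𝔼 n : Fin l → Fin M, (ε / (2 * (J + 1)) +
          ‖w t (rd (C0 * M) (pt n + (d : ℤ) • r t)) -
            v t (rd (C0 * M) (pt n + (d : ℤ) • r t))‖) ≤ ε / (J + 1) := fun t _ => by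
        rw [Finset.expect_add_distrib, Finset.expect_const hne]
        have a1 := exp_le (M := M) hC hM ((d : ℤ) • r t)
          (F := fun x => ‖w t x - v t x‖) fun x => norm_nonneg _
        have a2 := mul_le_mul_of_nonneg_left (hv2 t) (pow_pos hCr l).le
        have a3 : (C0 : ℝ) ^ l * (ε / (2 * (J + 1) * (C0 : ℝ) ^ l)) = ε / (2 * (J + 1)) := by
          field_simp
        have a4 : ε / (J + 1) = ε / (2 * (J + 1)) + ε / (2 * (J + 1)) := by
          field_simp
          ring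
        rw [a4]
        exact add_le_add le_rfl (a1.trans (a2.trans a3.le))
      refine (Finset.sum_le_sum e3).trans ?_
      rw [Finset.sum_const, Finset.card_univ, Fintype.card_fin, nsmul_eq_mul, ← mul_div_assoc,
        div_le_iff₀ (by positivity)]
      nlinarith
  choose S hS1 hS2 hS3 using key
  refine ⟨_, S, hS1, hS2, ?_⟩
  filter_upwards [eventually_ge_atTop 1,
    (tendsto_natCast_atTop_atTop (R := ℝ)).eventually_ge_atTop (8 * (J + 1) * ((k + 1) * l) / ε)]
    with M a1 a2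
  exact hS3 M a1 a2

end Pool.Agent.MP_154433_an.T4S

end
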