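import Pool.Agent.MP_154433_an.t4s.Basic

/-! Reduction to distinct maps that are not the identity. -/

set_option autoImplicit false
set_option linter.unusedVariables false

open MeasureTheory ProbabilityTheory Filter Topology Function
open scoped BigOperators ComplexConjugate InnerProductSpace

noncomputable section

namespace Pool.Agent.MP_154433_an.T4S

open T3S (B1 MB1 Near)

namespace Red

variable {X ι : Type} [MeasurableSpace X] {μ : Measure X} [IsProbabilityMeasure μ] {l : ℕ}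
  {A : Gm l → X → X} [Fintype ι] {w w' : ℕ → ℕ → ℝ} {r : ι → Gm l} {f : ι → X → ℂ}

lemma intg (hA : Act μ A) (hf : ∀ i, MB1 (f i)) (M : ℕ) :
    Integrable (fun x => ‖wavg A w r f M x‖ ^ 2) μ :=
  Integrable.of_bound ((hA.wavg_meas w r (fun i => (hf i).1) M).norm.pow_const 2).aestronglyMeasurable
    ((∑ d ∈ Finset.range M, |w M d|) ^ 2) (Eventually.of_forall fun x => by
      rw [norm_pow, norm_norm]
      exact pow_le_pow_left₀ (norm_nonneg _) (wavg_norm_le A w r (fun i => (hf i).2) M x) 2)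

lemma near (hA : Act μ A) (hn : Near w w') (hf : ∀ i, MB1 (f i)) (h : Van μ A w r f) :
    Van μ A w' r f := by
  have l := (h.const_mul 2).add ((hn.pow 2).const_mul 2)
  simp only [mul_zero, zero_add, zero_pow two_ne_zero] at l
  refine squeeze_zero (fun M => integral_nonneg fun x => sq_nonneg _) (fun M => ?_) l
  refine (integral_mono (intg hA hf M) (((intg (w := w) (r := r) hA hf M).const_mul 2).add
    (integrable_const (2 * (∑ d ∈ Finset.range M, |w M d - w' M d|) ^ 2))) fun x => ?_).trans ?_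
  · have a := wavg_norm_le A (fun M d => w M d - w' M d) r (fun i => (hf i).2) M x
    have e : wavg A w' r f M x =
        wavg A w r f M x - wavg A (fun M d => w M d - w' M d) r f M x := by
      simp only [wavg, ← Finset.sum_sub_distrib, ← sub_mul, Complex.ofReal_sub, sub_sub_cancel]
    have b := pow_le_pow_left₀ (norm_nonneg _)
      (e ▸ (norm_sub_le _ _).trans (add_le_add le_rfl a)) 2
    simp only [Pi.add_apply]
    nlinarith [sq_nonneg (‖wavg A w r f M x‖ - ∑ d ∈ Finset.range M, |w M d - w' M d|)]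
  · simp only [Pi.add_apply]
    rw [integral_add ((intg hA hf M).const_mul 2) (integrable_const _), integral_const_mul]
    simp

omit [IsProbabilityMeasure μ] in
/-- one modulus that serves all directions -/
lemma modulus (T : Fin l → X ≃ᵐ X) (hE : HypE μ T)
    (h1 : ∀ i (d : ℕ), A ((d : ℤ) • Pi.single i 1) = (⇑(T i))^[d])
    (h2 : ∀ i j, A (Pi.single i 1 - Pi.single j 1) = fun x => T i ((T j).symm x))
    (h3 : ∀ (S : Set X) (q : ℕ) (c : ℤ), MeasurableSet S → (∀ k, (⇑(T k))^[q] ⁻¹' S =ᵐ[μ] S) →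
      ∀ v : Gm l, A (((q : ℤ) * c) • v) ⁻¹' S =ᵐ[μ] S) :
    ∃ q : ℤ, q ≠ 0 ∧ (∀ i, ⇑(T i) ≠ id → Dom μ A (Pi.single i 1) q) ∧
      ∀ i j, ⇑(T i) ≠ ⇑(T j) → Dom μ A (Pi.single i 1 - Pi.single j 1) q := by
  have a1 : ∀ i, ∃ q : ℕ, 1 ≤ q ∧ (⇑(T i) ≠ id → ∀ S, MeasurableSet S → T i ⁻¹' S =ᵐ[μ] S →
      ∀ k, (⇑(T k))^[q] ⁻¹' S =ᵐ[μ] S) := fun i =>
    (hE.1 i).elim (fun h => ⟨1, le_rfl, fun h' => absurd h h'⟩)
      fun ⟨q, hq, h⟩ => ⟨q, hq, fun _ => h⟩
  have a2 : ∀ i j, ∃ q : ℕ, 1 ≤ q ∧ (⇑(T i) ≠ ⇑(T j) → ∀ S, MeasurableSet S →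
      (fun x => T i ((T j).symm x)) ⁻¹' S =ᵐ[μ] S → ∀ k, (⇑(T k))^[q] ⁻¹' S =ᵐ[μ] S) :=
    fun i j => (hE.2 i j).elim (fun h => ⟨1, le_rfl, fun h' => absurd h h'⟩)
      fun ⟨q, hq, h⟩ => ⟨q, hq, fun _ => h⟩
  choose q1 p1 b1 using a1
  choose q2 p2 b2 using a2
  refine ⟨(∏ i, (q1 i : ℤ)) * ∏ i, ∏ j, (q2 i j : ℤ), ?_, fun i hi S hS h v => ?_,
    fun i j hij S hS h v => ?_⟩
  · refine mul_ne_zero (Finset.prod_ne_zero_iff.2 fun i _ => ?_)
      (Finset.prod_ne_zero_iff.2 fun i _ => Finset.prod_ne_zero_iff.2 fun j _ => ?_)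
    · exact Int.natCast_ne_zero.2 (Nat.one_le_iff_ne_zero.1 (p1 i))
    · exact Int.natCast_ne_zero.2 (Nat.one_le_iff_ne_zero.1 (p2 i j))
  · obtain ⟨c, hc⟩ : (q1 i : ℤ) ∣ (∏ i, (q1 i : ℤ)) * ∏ i, ∏ j, (q2 i j : ℤ) :=
      (Finset.dvd_prod_of_mem (fun i => (q1 i : ℤ)) (Finset.mem_univ i)).mul_right _
    have e := h1 i 1
    rw [Nat.cast_one, one_smul, iterate_one] at e
    rw [e] at h
    rw [hc]
    exact h3 S _ c hS (b1 i hi S hS h) v
  · obtain ⟨c, hc⟩ : (q2 i j : ℤ) ∣ (∏ i, (q1 i : ℤ)) * ∏ i, ∏ j, (q2 i j : ℤ) :=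
      ((Finset.dvd_prod_of_mem (fun j => (q2 i j : ℤ)) (Finset.mem_univ j)).trans
        (Finset.dvd_prod_of_mem (fun i => ∏ j, (q2 i j : ℤ)) (Finset.mem_univ i))).mul_left _
    rw [h2 i j] at h
    rw [hc]
    exact h3 S _ c hS (b2 i j hij S hS h) v

end Red

open Red in
theorem red (h : ActS) : RedS := by
  classical
  intro w w' hn h0 l X _ μ _ T hT hC hE hV f hf
  obtain ⟨A, hA, h1, h2, h3⟩ := h l X μ T hT hC
  obtain ⟨q, hq, d1, d2⟩ := modulus T hE h1 h2 h3
  let k : Fin l → X → X := fun i => ⇑(T i)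
  let s := (Finset.univ.image k).erase id
  have hs : ∀ v : s, ∃ i, k i = v.1 := fun v => by
    obtain ⟨i, -, hi⟩ := Finset.mem_image.1 (Finset.mem_erase.1 v.2).2
    exact ⟨i, hi⟩
  choose c hc using hs
  let r : Fin s.card → Gm l := fun j => Pi.single (c (s.equivFin.symm j)) 1
  let F : (X → X) → X → ℂ := fun v x => ∏ i ∈ Finset.univ.filter fun i => k i = v, f i x
  have hF : ∀ v, MB1 (F v) := fun v => MB1.prod _ fun i _ => hf i
  have e0 : ∀ M x, wavg A w' (fun i => Pi.single i 1) f M x =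
      ∑ d ∈ Finset.range M, (w' M d : ℂ) * ∏ i, f i ((k i)^[d] x) := fun M x => by
    simp only [wavg, h1, k]
  have e1 : ∀ M x, wavg A w' r (fun j => F (s.equivFin.symm j).1) M x =
      ∑ d ∈ Finset.range M, (w' M d : ℂ) * ∏ v ∈ s, F v (v^[d] x) := fun M x => by
    simp only [wavg, r, h1]
    refine Finset.sum_congr rfl fun d _ => congrArg _ ?_
    rw [← Finset.prod_coe_sort s fun v => F v (v^[d] x),
      ← Equiv.prod_comp s.equivFin.symm fun v : s => F v.1 (v.1^[d] x)]
    refine Finset.prod_congr rfl fun j _ => ?_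
    have := hc (s.equivFin.symm j)
    simp only [k] at this
    rw [this]
  have e : ∀ M x, wavg A w' (fun i => Pi.single i 1) f M x =
      F id x * wavg A w' r (fun j => F (s.equivFin.symm j).1) M x := fun M x => by
    rw [e0, e1, Finset.mul_sum]
    refine Finset.sum_congr rfl fun d _ => ?_
    rw [mul_left_comm, ← Finset.prod_fiberwise_of_maps_to (t := insert id s) (g := k) fun i _ => ?_,
      Finset.prod_insert (Finset.notMem_erase _ _)]
    · refine congrArg _ (congrArg₂ _ (Finset.prod_congr rfl fun i hi => ?_)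
        (Finset.prod_congr rfl fun v _ => Finset.prod_congr rfl fun i hi => ?_))
      · rw [(Finset.mem_filter.1 hi).2, iterate_id, id]
      · rw [(Finset.mem_filter.1 hi).2]
    · rw [Finset.mem_insert, Finset.mem_erase]
      exact (em _).imp_right fun c => ⟨c, Finset.mem_image_of_mem _ (Finset.mem_univ i)⟩
  have v : Van μ A w' r fun j => F (s.equivFin.symm j).1 := by
    rcases Nat.eq_zero_or_pos s.card with c0 | c0
    · have : IsEmpty (Fin s.card) := c0 ▸ inferInstanceAs (IsEmpty (Fin 0))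
      have l := h0.pow 2
      rw [zero_pow two_ne_zero] at l
      refine l.congr fun M => ?_
      simp only [wavg, Finset.univ_eq_empty, Finset.prod_empty, mul_one, ← Complex.ofReal_sum,
        Complex.norm_real, Real.norm_eq_abs, sq_abs]
      simp
    · refine near hA hn (fun j => hF _) (hV _ r q A c0 hq hA ?_ _ fun j => hF _)
      rintro u (⟨j, rfl⟩ | ⟨j, j', hj, rfl⟩)
      · refine d1 _ fun hid => (Finset.mem_erase.1 (s.equivFin.symm j).2).1 ?_
        exact (hc _).symm.trans hid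
      · refine d2 _ _ fun hid => hj (s.equivFin.symm.injective (Subtype.ext ?_))
        exact (hc _).symm.trans (hid.trans (hc _))
  have fin : Van μ A w' (fun i => Pi.single i 1) f := by
    refine squeeze_zero (fun M => integral_nonneg fun x => sq_nonneg _) (fun M => ?_) v
    refine integral_mono (intg hA hf M) (intg hA (fun j => hF _) M) fun x => ?_
    refine pow_le_pow_left₀ (norm_nonneg _) ?_ 2
    rw [e, norm_mul]
    exact mul_le_of_le_one_left (norm_nonneg _) ((hF id).2 x)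
  refine fin.congr fun M => ?_
  simp only [e0, k]

end Pool.Agent.MP_154433_an.T4S

end
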