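import Pool.Agent.MP_154433_an.t4s.Basic

/-! The order of the steps does not matter; boxes may be replaced by long lines. -/

set_option autoImplicit false
set_option linter.unusedVariables false

open MeasureTheory ProbabilityTheory Filter Topology Function
open scoped BigOperators ComplexConjugate InnerProductSpace

noncomputable section

namespace Pool.Agent.MP_154433_an.T4S

open T3S (B1 MB1)

namespace RepAux

variable {l : ℕ}

lemma exp_le_add {ι : Type} [Fintype ι] {a b : ι → ℝ} {ε : ℝ} (hε : 0 ≤ ε)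
    (h : ∀ i, a i ≤ b i + ε) : 𝔼 i, a i ≤ (𝔼 i, b i) + ε := by
  rcases isEmpty_or_nonempty ι with hι | hι
  · simp [hε]
  · calc 𝔼 i, a i ≤ 𝔼 i, (b i + ε) := Finset.expect_le_expect fun i _ => h i
      _ = (𝔼 i, b i) + ε := by
        rw [Finset.expect_add_distrib, Finset.expect_const Finset.univ_nonempty]

lemma comm4 {ι κ : Type} [Fintype ι] [Fintype κ] (F : ι → ι → κ → κ → ℝ) :
    𝔼 h, 𝔼 h', 𝔼 k, 𝔼 k', F h h' k k' = 𝔼 k, 𝔼 k', 𝔼 h, 𝔼 h', F h h' k k' := by
  calc 𝔼 h, 𝔼 h', 𝔼 k, 𝔼 k', F h h' k k' = 𝔼 h, 𝔼 k, 𝔼 h', 𝔼 k', F h h' k k' :=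
        Finset.expect_congr rfl fun h _ => Finset.expect_comm _ _ _
    _ = 𝔼 k, 𝔼 h, 𝔼 h', 𝔼 k', F h h' k k' := Finset.expect_comm _ _ _
    _ = 𝔼 k, 𝔼 h, 𝔼 k', 𝔼 h', F h h' k k' :=
        Finset.expect_congr rfl fun k _ => Finset.expect_congr rfl fun h _ =>
          Finset.expect_comm _ _ _
    _ = 𝔼 k, 𝔼 k', 𝔼 h, 𝔼 h', F h h' k k' :=
        Finset.expect_congr rfl fun k _ => Finset.expect_comm _ _ _

variable {X : Type} [MeasurableSpace X] {μ : Measure X} {A : Gm l → X → X}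

lemma dd_comm (hA : Act μ A) (v w : Gm l) (g : X → ℂ) :
    ddX A v (ddX A w g) = ddX A w (ddX A v g) := by
  funext x
  simp only [ddX, map_mul, Complex.conj_conj, hA.comm v w]
  ring

lemma last (h2 : InnS) [IsProbabilityMeasure μ] (hA : Act μ A) {u : Gm l} {q : ℤ}
    (hu : Dom μ A u q) {K : ℕ} (hK : 1 ≤ K) {ε : ℝ} (hε : 0 < ε) (L : List (Fam l)) :
    ∀ g : X → ℂ, MB1 g →
      ∀ᶠ H in atTop, QX μ A (L ++ [ln u H]) g ≤ QX μ A (L ++ [cu l q K]) g + ε := by
  induction L with
  | nil => intro g hg; exact h2 l X μ A hA u q hu K hK g hg ε hε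
  | cons F L ih =>
    intro g hg
    have h := eventually_all.2 fun h : F.ι => eventually_all.2 fun h' : F.ι =>
      ih _ (hA.dd hg (F.a h' - F.a h))
    filter_upwards [h] with H hH
    simp only [List.cons_append, QX]
    exact exp_le_add hε.le fun h => exp_le_add hε.le fun h' => hH h h'

lemma gen (h1 : PermS) (h2 : InnS) [IsProbabilityMeasure μ] (hA : Act μ A) {q : ℤ} {K : ℕ}
    (hK : 1 ≤ K) {g : X → ℂ} (hg : MB1 g) (n : ℕ) :
    ∀ (u : Fin n → Gm l), (∀ j, Dom μ A (u j) q) → ∀ (L0 : List (Fam l)) (ε : ℝ), 0 < ε →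
      ∃ H : Fin n → ℕ, (∀ j, 1 ≤ H j) ∧
        QX μ A (L0 ++ List.ofFn fun j => ln (u j) (H j)) g ≤
          QX μ A (L0 ++ List.replicate n (cu l q K)) g + ε := by
  induction n with
  | zero =>
    intro u _ L0 ε hε
    exact ⟨fun j => 1, fun j => le_rfl, by simp [hε.le]⟩
  | succ n ih =>
    intro u hu L0 ε hε
    obtain ⟨H0, hH0, hH1⟩ := ((last h2 hA (hu 0) hK (half_pos hε)
      (L0 ++ List.replicate n (cu l q K)) g hg).and (eventually_ge_atTop 1)).exists
    obtain ⟨H, hH, hle⟩ := ih (fun j => u j.succ) (fun j => hu _) (L0 ++ [ln (u 0) H0]) (ε / 2)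
      (half_pos hε)
    refine ⟨Fin.cons H0 H, fun j => Fin.cases hH1 hH j, ?_⟩
    have e1 : (L0 ++ List.ofFn fun j => ln (u j) ((Fin.cons H0 H : Fin (n + 1) → ℕ) j)) =
        L0 ++ [ln (u 0) H0] ++ List.ofFn fun j : Fin n => ln (u j.succ) (H j) := by
      simp [List.ofFn_succ]
    have e2 : L0 ++ List.replicate (n + 1) (cu l q K) =
        L0 ++ List.replicate n (cu l q K) ++ [cu l q K] := by
      rw [List.replicate_succ', List.append_assoc]
    have e3 : QX μ A (L0 ++ [ln (u 0) H0] ++ List.replicate n (cu l q K)) g =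
        QX μ A (L0 ++ List.replicate n (cu l q K) ++ [ln (u 0) H0]) g := by
      refine h1 l X μ A hA _ _ ?_ g
      rw [List.append_assoc, List.append_assoc]
      exact List.Perm.append_left _ List.perm_append_comm
    rw [e1, e2]
    linarith

end RepAux

theorem perm : PermS := by
  intro l X _ μ A hA L L' hp
  induction hp with
  | nil => intro g; rfl
  | cons F _ ih =>
    intro g
    simp only [QX]
    exact Finset.expect_congr rfl fun h _ => Finset.expect_congr rfl fun h' _ => ih _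
  | swap F G L =>
    intro g
    simp only [QX]
    rw [RepAux.comm4]
    refine Finset.expect_congr rfl fun k _ => Finset.expect_congr rfl fun k' _ =>
      Finset.expect_congr rfl fun h _ => Finset.expect_congr rfl fun h' _ => ?_
    rw [RepAux.dd_comm hA]
  | trans _ _ ih1 ih2 => intro g; rw [ih1, ih2]

theorem rep (h1 : PermS) (h2 : InnS) : RepS := by
  intro l X _ μ _ A hA q K hK n u hu g hg ε hε
  simpa using RepAux.gen h1 h2 hA hK hg n u hu [] ε hε

end Pool.Agent.MP_154433_an.T4S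

end
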