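import Pool.Agent.MP_154433_an.t4s.Basic

/-! Thin classes have small weight; change of the weights. -/

set_option autoImplicit false
set_option linter.unusedVariables false

open MeasureTheory ProbabilityTheory Filter Topology Function
open scoped BigOperators ComplexConjugate InnerProductSpace

noncomputable section

namespace Pool.Agent.MP_154433_an.T4S

open T3S (B1 PW AsInv Near norm_prod_le_one)
open T4x (Thin Lau cls)

namespace SprL

/-- the indicator function -/
def io (A : Set ℤ) (d : ℤ) : ℝ := A.indicator (fun _ => (1 : ℝ)) d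

lemma io_mem (A : Set ℤ) (d : ℤ) : 0 ≤ io A d ∧ io A d ≤ 1 := by
  unfold io
  by_cases h : d ∈ A <;> simp [h]

lemma io_abs (A : Set ℤ) (d : ℤ) : |io A d| ≤ 1 :=
  abs_le.2 ⟨by linarith [(io_mem A d).1], (io_mem A d).2⟩

lemma thin_sum {ε : ℝ} {H : ℕ} {A : Set ℤ} (h : Thin ε H A) (n : ℤ) :
    ∑ k ∈ Finset.range H, io A (n + k) ≤ ε * H := by
  classical
  refine le_trans (le_of_eq ?_) (h n)
  rw [Finset.card_filter]
  push_cast
  refine Finset.sum_congr rfl fun k _ => ?_
  unfold io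
  by_cases hk : n + k ∈ A <;> simp [hk]

lemma thin_wt {w : ℕ → ℕ → ℝ} (hw : PW w) (ha : AsInv w) {H : ℕ} (hH : 1 ≤ H) {η : ℝ}
    (hη : 0 < η) : ∀ᶠ M in atTop, ∀ (ε : ℝ) (A : Set ℤ), Thin ε H A → wt w M A ≤ ε + η := by
  filter_upwards [hw.2, (Finset.eventually_all (Finset.range H)).2 fun h _ => ha h η hη]
    with M h1 h2 ε A hA
  have hp : (0 : ℝ) < H := by exact_mod_cast hH
  have h3 : ∀ h ∈ Finset.range H, wt w M A ≤
      ∑ d ∈ Finset.range M, w M d * io A ((d : ℤ) + h) + η := fun h hh => by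
    have h4 := h2 h hh ℝ (fun d => io A d) fun d => io_abs A d
    simp only [smul_eq_mul, mul_sub, Finset.sum_sub_distrib, Real.norm_eq_abs, Nat.cast_add] at h4
    have h5 := (abs_le.1 h4).1
    have h6 : wt w M A = ∑ d ∈ Finset.range M, w M d * io A d := rfl
    linarith
  have h7 := Finset.sum_le_sum h3
  rw [Finset.sum_const, Finset.card_range, Finset.sum_add_distrib, Finset.sum_const,
    Finset.card_range, Finset.sum_comm, nsmul_eq_mul, nsmul_eq_mul] at h7
  have h8 : ∑ d ∈ Finset.range M, ∑ h ∈ Finset.range H, w M d * io A ((d : ℤ) + h) ≤ ε * H := by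
    calc _ ≤ ∑ d ∈ Finset.range M, w M d * (ε * H) := Finset.sum_le_sum fun d _ => by
          rw [← Finset.mul_sum]
          exact mul_le_mul_of_nonneg_left (thin_sum hA d) (hw.1 M d)
      _ = ε * H := by rw [← Finset.sum_mul, h1, one_mul]
  refine le_of_mul_le_mul_left ?_ hp
  nlinarith

lemma wt_split (ν ν' y : ℕ → ℕ → ℝ) (M : ℕ) (A : Set ℤ) :
    wt ν M A ≤ wt ν' M A + wt y M A + ∑ d ∈ Finset.range M, |ν M d - ν' M d - y M d| := by
  unfold wt
  rw [← Finset.sum_add_distrib, ← Finset.sum_add_distrib]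
  refine Finset.sum_le_sum fun d _ => ?_
  have h1 := io_mem A d
  have h2 : (ν M d - ν' M d - y M d) * io A d ≤ |ν M d - ν' M d - y M d| :=
    (mul_le_mul_of_nonneg_right (le_abs_self _) h1.1).trans
      (mul_le_of_le_one_right (abs_nonneg _) h1.2)
  change ν M d * io A d ≤ ν' M d * io A d + y M d * io A d + _
  linarith

lemma tv (M : ℕ) (w w' : ℕ → ℝ) (c : ℕ → ℂ) (hc : ∀ d, ‖c d‖ ≤ 1) :
    ‖∑ d ∈ Finset.range M, (w d : ℂ) * c d‖ ≤
      ‖∑ d ∈ Finset.range M, (w' d : ℂ) * c d‖ + ∑ d ∈ Finset.range M, |w d - w' d| := by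
  have e : ∑ d ∈ Finset.range M, (w d : ℂ) * c d = ∑ d ∈ Finset.range M, (w' d : ℂ) * c d +
      ∑ d ∈ Finset.range M, ((w d - w' d : ℝ) : ℂ) * c d := by
    rw [← Finset.sum_add_distrib]
    refine Finset.sum_congr rfl fun d _ => ?_
    push_cast
    ring
  rw [e]
  refine (norm_add_le _ _).trans (add_le_add le_rfl ((norm_sum_le _ _).trans
    (Finset.sum_le_sum fun d _ => ?_)))
  rw [norm_mul, Complex.norm_real, Real.norm_eq_abs]
  exact mul_le_of_le_one_right (abs_nonneg _) (hc d)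

end SprL

open SprL in
theorem spr : SprS := by
  intro ν ν' y hw ha hn hc
  refine ⟨fun r s L N ε H hε hH => ?_, fun r s L N ε H hε hH => ?_⟩
  · filter_upwards [thin_wt hw ha hH (show 0 < ε / 3 by positivity),
      hc r s L N (ε / 3) (by positivity),
      Tendsto.eventually_lt_const (show 0 < ε / 3 by positivity) hn] with M h1 h2 h3 m d0 hm hd hT
    have h4 := wt_split ν ν' y M (cls N m M d0)
    have h5 := (abs_le.1 (h2 m d0 hm hd)).2
    linarith [h1 ε _ hT]
  · filter_upwards [thin_wt hw ha hH hε] with M h1 m d0 hm hd hT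
    linarith [h1 ε _ hT]

open SprL in
theorem near : NearS := by
  intro k l q w w' hn hS J r ε hε
  filter_upwards [hS J r (ε / 2) (half_pos hε),
    Tendsto.eventually_lt_const (half_pos hε) hn] with M h1 h2 u hu
  have h3 : ∀ n : Fin l → Fin M,
      ‖∑ d ∈ Finset.range M, (w M d : ℂ) * ∏ t, u t (pt n + (d : ℤ) • r t)‖ ≤
        ‖∑ d ∈ Finset.range M, (w' M d : ℂ) * ∏ t, u t (pt n + (d : ℤ) • r t)‖ + ε / 2 := fun n =>
    (tv M (w M) (w' M) _ fun d => norm_prod_le_one _ fun t _ => CZ_B1 (hu t) _).trans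
      (add_le_add le_rfl h2.le)
  refine (Finset.expect_le_expect fun n _ => h3 n).trans ?_
  rw [Finset.expect_add_distrib]
  have h4 : 𝔼 n : Fin l → Fin M, ε / 2 ≤ ε / 2 := by
    rcases (Finset.univ : Finset (Fin l → Fin M)).eq_empty_or_nonempty with h | h
    · rw [h, Finset.expect_empty]
      exact (half_pos hε).le
    · rw [Finset.expect_const h]
  linarith [h1 u hu]

end Pool.Agent.MP_154433_an.T4S

end
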