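import Pool.Agent.MP_154433_an.t4s.Basic
import Pool.Agent.MP_154433_an.t3s.Unif

/-! The factor generated by dual functions has the uniformity property (commuting maps). -/

set_option autoImplicit false
set_option linter.unusedVariables false

open MeasureTheory ProbabilityTheory Filter Topology Function
open scoped BigOperators ComplexConjugate InnerProductSpace

noncomputable section

namespace Pool.Agent.MP_154433_an.T4S

open T3S (B1 MB1)
open T3S.UnifAux (int_zero le_pow_div sum_eq)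

namespace UnifB

lemma wavg_eq {X : Type} {l : ℕ} (A : Gm l → X → X) (w : ℕ → ℕ → ℝ) {n : ℕ}
    (r : Fin (n + 1) → Gm l) (i0 : Fin (n + 1)) (c : Fin (n + 1) → X → ℂ) (F : X → ℂ) (M : ℕ) :
    wavg A w r (update c i0 F) M =
      wavg A w (Fin.cons (r i0) fun j : Fin n => r (i0.succAbove j) : Fin (n + 1) → Gm l)
        (Fin.cons F fun j : Fin n => c (i0.succAbove j) : Fin (n + 1) → X → ℂ) M := by
  funext x
  simp only [wavg]
  refine Finset.sum_congr rfl fun d _ => ?_
  rw [Fin.prod_univ_succAbove _ i0, Fin.prod_univ_succ]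
  simp only [update_self, Fin.cons_zero, Fin.cons_succ,
    update_of_ne (Fin.succAbove_ne i0 _)]

end UnifB

open UnifB

theorem unif (h1 : FacS) (h2 : ZeroS) (h3 : RepS) (h4 : GvnS) : UnifS := by
  intro w hw hinv l X _ μ _ A hA q n r hE u hu i0 g hg h0 ε hε
  obtain ⟨n, rfl⟩ : ∃ n', n = n' + 1 := ⟨n - 1, by have := i0.pos; omega⟩
  obtain ⟨m, hm⟩ : ∃ m, 2 ^ n = m + 1 := ⟨2 ^ n - 1, by have := Nat.two_pow_pos n; omega⟩
  obtain ⟨hF, hD⟩ := h1 (n + 1) l q X μ A hA
  let b' : Fin (n + 1) → Gm l := Fin.cons (r i0) fun j : Fin n => r i0 - r (i0.succAbove j)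
  let b : Fin (n + 1 + 1) → Gm l := Fin.cons u b'
  have hb : ∀ i, Dom μ A (b i) q := by
    intro i
    refine hE _ ?_
    refine Fin.cases ?_ (fun i => ?_) i
    · exact hu
    · refine Fin.cases ?_ (fun j => ?_) i
      · exact Or.inl ⟨i0, rfl⟩
      · exact Or.inr ⟨i0, i0.succAbove j, (Fin.succAbove_ne i0 j).symm, rfl⟩
  have hs : 0 < ε / 2 := by positivity
  have hsm : 0 < (ε / 2) ^ m := by positivity
  obtain ⟨K, hK, hQ⟩ := h2 l X μ A hA q (n + 1 + 1) g hg
    (fun D hD' => int_zero hF.1 hg hD'.1 (hD D hD') h0) (ε / 4 * (ε / 2) ^ m) (by positivity)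
  obtain ⟨H, hH, hR⟩ := h3 l X μ A hA q K hK (n + 1 + 1) b hb g hg (ε / 4 * (ε / 2) ^ m)
    (by positivity)
  let L : List (Fam l) := List.ofFn fun j : Fin (n + 1) => ln (b' j) (H j.succ)
  let p : ℕ → ℕ → ℝ := fun a a' => QX μ A L (ddX A (((a : ℤ) - (a' : ℤ)) • u) g)
  have hq : QX μ A (List.ofFn fun j => ln (b j) (H j)) g =
      𝔼 h : Fin (H 0), 𝔼 h' : Fin (H 0), p h' h := by
    rw [List.ofFn_succ]
    exact QX_ln μ A u (H 0) L g
  refine ⟨H 0, fun a a' => ε / 2 + p a a' / (ε / 2) ^ m, hH 0, ?_, ?_⟩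
  · simp only [Finset.sum_add_distrib, Finset.sum_const, Finset.card_range, nsmul_eq_mul,
      ← Finset.sum_div]
    rw [sum_eq (H 0) (hH 0) p, ← hq]
    have h5 : QX μ A (List.ofFn fun j => ln (b j) (H j)) g * (H 0 : ℝ) ^ 2 / (ε / 2) ^ m ≤
        ε / 2 * (H 0 : ℝ) ^ 2 := by
      rw [div_le_iff₀ hsm]
      have h6 : QX μ A (List.ofFn fun j => ln (b j) (H j)) g ≤ ε / 2 * (ε / 2) ^ m := by
        linarith
      have := mul_le_mul_of_nonneg_right h6 (sq_nonneg (H 0 : ℝ))
      linarith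
    linarith
  · intro a a' c hc η hη
    let F : X → ℂ := fun y => g (A ((a : ℤ) • u) y) * conj (g (A ((a' : ℤ) • u) y))
    have hFm : MB1 F := (hA.tz hg _).mul (hA.tz hg _).cj
    have hFe : F = fun y => ddX A (((a : ℤ) - (a' : ℤ)) • u) g (A ((a' : ℤ) • u) y) := by
      funext y
      simp only [F, ddX, ← hA.add, ← add_smul, sub_add_cancel]
    have hf : ∀ i, MB1 ((Fin.cons F fun j : Fin n => c (i0.succAbove j) :
        Fin (n + 1) → X → ℂ) i) := by
      intro i
      refine Fin.cases ?_ (fun j => ?_) i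
      · exact hFm
      · exact hc _
    filter_upwards [h4 w hw hinv l X μ A hA n (fun j => H j.succ) (fun j => hH _)
      (Fin.cons (r i0) fun j : Fin n => r (i0.succAbove j) : Fin (n + 1) → Gm l) _ hf
      (η * (ε / 2) ^ m) (by positivity)] with M hM
    simp only [Fin.cons_zero, Fin.cons_succ] at hM
    rw [← wavg_eq, hm] at hM
    have h5 : QX μ A L F = p a a' := by
      rw [hFe]
      exact hA.QX_tz L _ (hA.dd hg _)
    have h6 := le_pow_div (t := ∫ x, ‖wavg A w r (update c i0 F) M x‖ ^ 2 ∂μ)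
      (integral_nonneg fun x => sq_nonneg _) hs m
    have h7 : (∫ x, ‖wavg A w r (update c i0 F) M x‖ ^ 2 ∂μ) ^ (m + 1) / (ε / 2) ^ m ≤
        p a a' / (ε / 2) ^ m + η := by
      rw [div_le_iff₀ hsm, add_mul, div_mul_cancel₀ _ hsm.ne', ← h5]
      exact hM
    exact h6.trans (by linarith)

end Pool.Agent.MP_154433_an.T4S

end
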