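import Pool.Agent.MP_154433_an.t3u.Sp
import Pool.Agent.MP_154433_an.t3u.P99
import Pool.Agent.MP_154433_an.t3u.Exh
import Pool.Agent.MP_154433_an.t3u.FA
import Pool.Agent.MP_154433_an.t3u.Net
import Pool.Agent.MP_154433_an.t3u.UC
import Pool.Agent.MP_154433_an.t3u.Typ
import Pool.Agent.MP_154433_an.t3u.Uni
import Pool.Agent.MP_154433_an.t3u.Stc
import Pool.Agent.MP_154433_an.t3u.Stb
import Pool.Agent.MP_154433_an.t3u.CO
import Pool.Agent.MP_154433_an.t3u.Ker
import Pool.Agent.MP_154433_an.t3u.Int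
import Pool.Agent.MP_154433_an.t3u.UA
import Pool.Agent.MP_154433_an.t3u.UB
import Pool.Agent.MP_154433_an.t3u.Sat
import Pool.Agent.MP_154433_an.t3u.SpA
import Pool.Agent.MP_154433_an.t3u.Ds
import Pool.Agent.MP_154433_an.t3u.Cp
import Pool.Agent.MP_154433_an.t3u.Eig
import Pool.Agent.MP_154433_an.t3u.Gap
import Pool.Agent.MP_154433_an.t3u.Sta
import Pool.Agent.MP_154433_an.t3u.Vp
import Pool.Agent.MP_154433_an.t3u.Po
import Pool.Agent.MP_154433_an.t3u.Cnt
import Pool.Agent.MP_154433_an.t3u.Rep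
import Pool.Agent.MP_154433_an.t3u.Ind
import Pool.Agent.MP_154433_an.t3u.Gr
import Pool.Agent.MP_154433_an.t4s.Act
import Pool.Agent.MP_154433_an.t4s.Ae
import Pool.Agent.MP_154433_an.t4s.Apx
import Pool.Agent.MP_154433_an.t4s.Asm
import Pool.Agent.MP_154433_an.t4s.Bridge
import Pool.Agent.MP_154433_an.t4s.Cls
import Pool.Agent.MP_154433_an.t4s.Cov
import Pool.Agent.MP_154433_an.t4s.End
import Pool.Agent.MP_154433_an.t4s.Fac
import Pool.Agent.MP_154433_an.t4s.Good
import Pool.Agent.MP_154433_an.t4s.Gvn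
import Pool.Agent.MP_154433_an.t4s.Inn
import Pool.Agent.MP_154433_an.t4s.Link
import Pool.Agent.MP_154433_an.t4s.Net
import Pool.Agent.MP_154433_an.t4s.Prod
import Pool.Agent.MP_154433_an.t4s.Red
import Pool.Agent.MP_154433_an.t4s.Rep
import Pool.Agent.MP_154433_an.t4s.Spr
import Pool.Agent.MP_154433_an.t4s.Unif
import Pool.Agent.MP_154433_an.t4s.Zero

/-! Assembly: the main statement for commuting maps follows from the deterministic theorem. -/

set_option autoImplicit false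

namespace Pool.Agent.MP_154433_an.T4S

theorem invG : T3u.InvG :=
  T3u.invG_of T3u.ua T3u.ub T3u.sat T3u.cfc T3u.uc T3u.exh T3u.spA T3u.ds T3u.cpA T3u.fa T3u.co
    T3u.eig T3u.ker T3u.gap T3u.sp T3u.sta T3u.stb T3u.joint T3u.stc T3u.st T3u.uni T3u.typ T3u.vp
    T3u.po T3u.int T3u.sym T3u.p99 T3u.cnt T3u.rep T3u.net T3u.ent T3u.ind T3u.inv

theorem aeAll : AeS :=
  ae (net (apx (shift T3S.shift) (T3S.dual T3S.gcs T3S.win)) (cov invG)) T3S.ub T3S.nrm T3S.aeAll

theorem mainAll (h : ∀ G : T4x.Grp, @T4x.DET G) : MainS :=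
  mainOf fac (good prodr)
    (unif fac (zero T3S.nest link) (rep perm (inn invF)) (gvn T3S.vdc)) aeAll T3S.aeAll
    (clsr T3S.ub cnt) spr near T3S.nrm (T3S.erg T3S.vn) (red act) endr (detOf h)

end Pool.Agent.MP_154433_an.T4S
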