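import Pool.Agent.MP_154433_an.t4s.Basic
import Pool.Agent.MP_154433_an.t3s.Gvn

/-! The generalized von Neumann inequality for weighted multiple averages of a lattice action. -/

set_option autoImplicit false
set_option linter.unusedVariables false

open MeasureTheory ProbabilityTheory Filter Topology Function
open scoped BigOperators ComplexConjugate InnerProductSpace

noncomputable section

namespace Pool.Agent.MP_154433_an.T4S

open T3S (B1 MB1 PW AsInv norm_exp_le_of norm_prod_le_one meas_exp integral_exp re_exp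
  exp_le_of_le)
open T3S.Gvn (pow_exp_le add_pow_le cs int_sq sq_le_one)

namespace Gvn

variable {l : ℕ} {X : Type} [MeasurableSpace X] {μ : Measure X} [IsProbabilityMeasure μ]
  {A : Gm l → X → X}

/-- the differenced functions -/
def FF {X : Type} {ι : Type} (A : Gm l → X → X) (r : ι → Gm l) (f : ι → X → ℂ) (h h' : ℕ) (i : ι)
    (y : X) : ℂ :=
  f i (A ((h' : ℤ) • r i) y) * conj (f i (A ((h : ℤ) • r i) y))

omit [IsProbabilityMeasure μ] in
lemma FF_MB1 (hA : Act μ A) {ι : Type} (r : ι → Gm l) {f : ι → X → ℂ} (hf : ∀ i, MB1 (f i))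
    (h h' : ℕ) (i : ι) : MB1 (FF A r f h h' i) :=
  (hA.tz (hf i) _).mul (hA.tz (hf i) _).cj

omit [IsProbabilityMeasure μ] in
lemma FF_eq (hA : Act μ A) {ι : Type} (r : ι → Gm l) (f : ι → X → ℂ) (h h' : ℕ) (i : ι) :
    FF A r f h h' i =
      fun x => ddX A (((h' : ℤ) - (h : ℤ)) • r i) (f i) (A ((h : ℤ) • r i) x) := by
  funext x
  simp only [FF, ddX, ← hA.add]
  congr 3
  rw [sub_smul, sub_add_cancel]

omit [IsProbabilityMeasure μ] in
lemma wavg_MB1 (hA : Act μ A) {ι : Type} [Fintype ι] {w : ℕ → ℕ → ℝ} (hw : ∀ M d, 0 ≤ w M d)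
    {M : ℕ} (h1 : ∑ d ∈ Finset.range M, w M d = 1) (r : ι → Gm l) {f : ι → X → ℂ}
    (hf : ∀ i, MB1 (f i)) : MB1 (wavg A w r f M) := by
  refine ⟨hA.wavg_meas w r (fun i => (hf i).1) M, fun x => ?_⟩
  refine (wavg_norm_le A w r (fun i => (hf i).2) M x).trans (le_of_eq ?_)
  rw [← h1]
  exact Finset.sum_congr rfl fun d _ => abs_of_nonneg (hw M d)

lemma int_wavg (hA : Act μ A) {ι : Type} [Fintype ι] (w : ℕ → ℕ → ℝ) (M : ℕ) (r : ι → Gm l)
    {f : ι → X → ℂ} (hf : ∀ i, MB1 (f i)) : ∫ x, wavg A w r f M x ∂μ =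
      ∑ d ∈ Finset.range M, (w M d : ℂ) * ∫ x, ∏ i, f i (A ((d : ℤ) • r i) x) ∂μ := by
  simp only [wavg]
  rw [integral_finsetSum _ fun d _ =>
    ((T3S.MB1.prod _ fun i _ => hA.tz (hf i) _).integrable μ).const_mul _]
  exact Finset.sum_congr rfl fun d _ => integral_const_mul _ _

/-- the van der Corput inequality, integrated -/
lemma step (hA : Act μ A) (hv : T3S.VdcS) {w : ℕ → ℕ → ℝ} (hw : PW w) (ha : AsInv w) {H : ℕ}
    (hH : 1 ≤ H) {ι : Type} [Fintype ι] (r : ι → Gm l) {f : ι → X → ℂ} (hf : ∀ i, MB1 (f i))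
    {η : ℝ} (hη : 0 < η) : ∀ᶠ M in atTop, ∫ x, ‖wavg A w r f M x‖ ^ 2 ∂μ ≤
      (𝔼 h : Fin H, 𝔼 h' : Fin H, (∫ x, wavg A w r (FF A r f h h') M x ∂μ).re) + η := by
  filter_upwards [hv w hw ha H hH η hη, hw.2] with M hM h1
  have mF : ∀ h h' : Fin H, MB1 (wavg A w r (FF A r f h h') M) := fun h h' =>
    wavg_MB1 hA hw.1 h1 r (FF_MB1 hA r hf h h')
  have iF : ∀ h h' : Fin H, Integrable (wavg A w r (FF A r f h h') M) μ := fun h h' =>
    (mF h h').integrable μ
  have mE : MB1 fun x => 𝔼 h : Fin H, 𝔼 h' : Fin H, wavg A w r (FF A r f h h') M x :=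
    ⟨meas_exp _ fun h _ => meas_exp _ fun h' _ => (mF h h').1,
      fun x => norm_exp_le_of zero_le_one fun h _ => norm_exp_le_of zero_le_one fun h' _ =>
        (mF h h').2 x⟩
  have mE' : ∀ h : Fin H, MB1 fun x => 𝔼 h' : Fin H, wavg A w r (FF A r f h h') M x := fun h =>
    ⟨meas_exp _ fun h' _ => (mF h h').1,
      fun x => norm_exp_le_of zero_le_one fun h' _ => (mF h h').2 x⟩
  have key : ∀ x, ‖wavg A w r f M x‖ ^ 2 ≤
      (𝔼 h : Fin H, 𝔼 h' : Fin H, wavg A w r (FF A r f h h') M x).re + η := by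
    intro x
    have h2 := hM (fun d => ∏ i, f i (A ((d : ℤ) • r i) x))
      (fun d => norm_prod_le_one _ fun i _ => (hf i).2 _)
    refine h2.trans (le_of_eq ?_)
    congr 2
    refine Finset.expect_congr rfl fun h _ => Finset.expect_congr rfl fun h' _ => ?_
    refine Finset.sum_congr rfl fun d _ => ?_
    congr 1
    rw [map_prod, ← Finset.prod_mul_distrib]
    refine Finset.prod_congr rfl fun i _ => ?_
    have e : ∀ a : ℕ, ((d + a : ℕ) : ℤ) • r i = (a : ℤ) • r i + (d : ℤ) • r i := fun a => by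
      rw [← add_smul, Nat.cast_add, add_comm]
    simp only [FF, ← hA.add, e]
  have iR : Integrable (fun x =>
      (𝔼 h : Fin H, 𝔼 h' : Fin H, wavg A w r (FF A r f h h') M x).re) μ := (mE.integrable μ).re
  refine (integral_mono (int_sq (wavg_MB1 hA hw.1 h1 r hf)) (iR.add (integrable_const η))
    key).trans (le_of_eq ?_)
  simp only [Pi.add_apply]
  rw [integral_add iR (integrable_const η)]
  congr 1
  · have e := integral_re (𝕜 := ℂ) (mE.integrable μ)
    simp only [RCLike.re_to_complex] at e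
    rw [e, integral_exp _ fun h _ => (mE' h).integrable μ, re_exp]
    refine Finset.expect_congr rfl fun h _ => ?_
    rw [integral_exp _ fun h' _ => iF h h', re_exp]
  · simp

/-- removing the slot one -/
lemma drop (hA : Act μ A) {w : ℕ → ℕ → ℝ} (hw : ∀ M d, 0 ≤ w M d) {M : ℕ}
    (h1 : ∑ d ∈ Finset.range M, w M d = 1) {n : ℕ} (r : Fin (n + 2) → Gm l)
    {F : Fin (n + 2) → X → ℂ} (hF : ∀ i, MB1 (F i)) :
    (∫ x, wavg A w r F M x ∂μ).re ≤ √(∫ x, ‖wavg A w
      (fun j : Fin (n + 1) => r ((1 : Fin (n + 2)).succAbove j) - r 1)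
      (fun j => F ((1 : Fin (n + 2)).succAbove j)) M x‖ ^ 2 ∂μ) := by
  set r' : Fin (n + 1) → Gm l := fun j => r ((1 : Fin (n + 2)).succAbove j) - r 1 with hr'
  set F' : Fin (n + 1) → X → ℂ := fun j => F ((1 : Fin (n + 2)).succAbove j) with hF'
  have mF' : ∀ j, MB1 (F' j) := fun j => hF _
  have mW := wavg_MB1 hA hw h1 r' mF'
  have e : ∫ x, wavg A w r F M x ∂μ = ∫ x, F 1 x * wavg A w r' F' M x ∂μ := by
    rw [int_wavg hA w M r hF]
    simp only [wavg, Finset.mul_sum]
    rw [integral_finsetSum _ fun d _ => ?_]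
    · refine Finset.sum_congr rfl fun d _ => ?_
      rw [← hA.integral (-((d : ℤ) • r 1))
        (T3S.MB1.prod _ fun i _ => hA.tz (hF i) _).1.aestronglyMeasurable, ← integral_const_mul]
      refine integral_congr_ae (Eventually.of_forall fun x => ?_)
      simp only [← hA.add]
      rw [Fin.prod_univ_succAbove _ (1 : Fin (n + 2)), add_neg_cancel, hA.zero, mul_left_comm]
      congr 2
      refine Finset.prod_congr rfl fun j _ => ?_
      simp only [hF', hr']
      congr 2
      rw [smul_sub, sub_eq_add_neg]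
    · simp only [mul_left_comm (F 1 _)]
      exact (((hF 1).mul (T3S.MB1.prod _ fun i _ => hA.tz (mF' i) _)).integrable μ).const_mul _
  refine le_trans ?_ (Real.le_sqrt_of_sq_le (cs mW))
  rw [e]
  refine (Complex.re_le_norm _).trans ((norm_integral_le_integral_norm _).trans ?_)
  refine integral_mono (((hF 1).mul mW).integrable μ).norm (mW.integrable μ).norm fun x => ?_
  simp only [norm_mul]
  exact mul_le_of_le_one_left (norm_nonneg _) ((hF 1).2 x)

end Gvn

open Gvn in
theorem gvn (h : T3S.VdcS) : GvnS := by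
  intro w hw ha l X _ μ _ A hA n
  induction n with
  | zero =>
    intro H hH r f hf η hη
    filter_upwards [step hA h hw ha (hH 0) r hf hη, hw.2] with M hM h1
    rw [pow_zero, pow_one]
    refine hM.trans (le_of_eq ?_)
    congr 1
    rw [List.ofFn_succ, List.ofFn_zero, QX_ln]
    simp only [QX, Fin.cons_zero]
    refine Finset.expect_congr rfl fun a _ => Finset.expect_congr rfl fun a' _ => ?_
    rw [int_wavg hA w M r (FF_MB1 hA r hf a a')]
    have e : ∀ d : ℕ, ∫ x, ∏ i, FF A r f a a' i (A ((d : ℤ) • r i) x) ∂μ =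
        ∫ x, ddX A ((((a' : ℕ) : ℤ) - ((a : ℕ) : ℤ)) • r 0) (f 0) x ∂μ := by
      intro d
      simp only [Fin.prod_univ_succ, Fin.prod_univ_zero, mul_one]
      rw [hA.integral _ (FF_MB1 hA r hf a a' 0).1.aestronglyMeasurable, FF_eq hA,
        hA.integral _ (hA.dd (hf 0) _).1.aestronglyMeasurable]
    simp only [e, ← Finset.sum_mul]
    rw [← Complex.ofReal_sum, h1, Complex.ofReal_one, one_mul]
  | succ n ih =>
    intro H hH r f hf η hη
    have : Nonempty (Fin (H 0)) := ⟨⟨0, hH 0⟩⟩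
    set m : ℕ := 2 ^ (n + 1) with hm
    have hK : (0 : ℝ) < m * 2 ^ (m - 1) := by positivity
    set e : ℝ := min 1 (η / 2 / (m * 2 ^ (m - 1))) with he
    have he0 : 0 < e := lt_min one_pos (by positivity)
    have he2 : e * (m * 2 ^ (m - 1)) ≤ η / 2 := (le_div_iff₀ hK).1 (min_le_right _ _)
    set r' : Fin (n + 1) → Gm l := fun j => r ((1 : Fin (n + 2)).succAbove j) - r 1 with hr'
    set F' : Fin (H 0) → Fin (H 0) → Fin (n + 1) → X → ℂ :=
      fun a a' j => FF A r f a a' ((1 : Fin (n + 2)).succAbove j) with hF'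
    have mF' : ∀ a a' j, MB1 (F' a a' j) := fun a a' j => FF_MB1 hA r hf a a' _
    have hI := eventually_all.2 fun a : Fin (H 0) => eventually_all.2 fun a' : Fin (H 0) =>
      ih (fun j => H j.succ) (fun j => hH _) r' (F' a a') (mF' a a') (η / 2) (half_pos hη)
    filter_upwards [step hA h hw ha (hH 0) r hf he0, hw.2, hI] with M hM h1 hI
    set s : Fin (H 0) → Fin (H 0) → ℝ :=
      fun a a' => √(∫ x, ‖wavg A w r' (F' a a') M x‖ ^ 2 ∂μ) with hs
    have s0 : ∀ a a', 0 ≤ s a a' := fun a a' => Real.sqrt_nonneg _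
    have s1 : ∀ a a', s a a' ≤ 1 := fun a a' =>
      Real.sqrt_le_one.2 (sq_le_one (wavg_MB1 hA hw.1 h1 r' (mF' a a')))
    have hA' : ∫ x, ‖wavg A w r f M x‖ ^ 2 ∂μ ≤ (𝔼 a, 𝔼 a', s a a') + e := by
      refine hM.trans (add_le_add_left ?_ _)
      exact Finset.expect_le_expect fun a _ => Finset.expect_le_expect fun a' _ =>
        drop hA hw.1 h1 r (FF_MB1 hA r hf a a')
    have E0 : 0 ≤ 𝔼 a, 𝔼 a', s a a' :=
      Finset.expect_nonneg fun a _ => Finset.expect_nonneg fun a' _ => s0 a a'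
    have E1 : 𝔼 a, 𝔼 a', s a a' ≤ 1 :=
      exp_le_of_le zero_le_one fun a _ => exp_le_of_le zero_le_one fun a' _ => s1 a a'
    have hB := (pow_le_pow_left₀ (integral_nonneg fun x => sq_nonneg _) hA' m).trans
      (add_pow_le E0 E1 he0.le (min_le_left _ _) m)
    have hC : (𝔼 a, 𝔼 a', s a a') ^ m ≤ 𝔼 a, 𝔼 a', s a a' ^ m :=
      (pow_exp_le _ (fun a => Finset.expect_nonneg fun a' _ => s0 a a') m).trans
        (Finset.expect_le_expect fun a _ => pow_exp_le _ (s0 a) m)
    have hb : (Fin.cons (r' 0) fun j : Fin n => r' 0 - r' j.succ : Fin (n + 1) → Gm l) =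
        fun j : Fin (n + 1) => r 0 - r j.succ := by
      funext j
      refine Fin.cases ?_ (fun j => ?_) j
      · simp [hr']
      · simp [hr']
    have hD : ∀ a a' : Fin (H 0), s a a' ^ m ≤
        QX μ A (List.ofFn fun j : Fin (n + 1) => ln (r 0 - r j.succ) (H j.succ))
          (ddX A ((((a' : ℕ) : ℤ) - ((a : ℕ) : ℤ)) • r 0) (f 0)) + η / 2 := by
      intro a a'
      have h2 := hI a a'
      rw [hb] at h2
      have h3 : F' a a' 0 = fun x => ddX A ((((a' : ℕ) : ℤ) - ((a : ℕ) : ℤ)) • r 0) (f 0)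
          (A (((a : ℕ) : ℤ) • r 0) x) := by
        simp only [hF', Fin.one_succAbove_zero, FF_eq hA]
      rw [h3, hA.QX_tz _ _ (hA.dd (hf 0) _)] at h2
      rw [hm, pow_succ', pow_mul, Real.sq_sqrt (integral_nonneg fun x => sq_nonneg _)]
      exact h2
    have hE : 𝔼 a, 𝔼 a', s a a' ^ m ≤ QX μ A (List.ofFn fun j : Fin (n + 1 + 1) =>
        ln ((Fin.cons (r 0) fun i : Fin (n + 1) => r 0 - r i.succ : Fin (n + 1 + 1) → Gm l) j)
          (H j)) (f 0) + η / 2 := by
      refine (Finset.expect_le_expect fun a _ => Finset.expect_le_expect fun a' _ =>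
        hD a a').trans (le_of_eq ?_)
      rw [List.ofFn_succ (n := n + 1), QX_ln]
      simp only [Finset.expect_add_distrib, Finset.expect_const Finset.univ_nonempty,
        Fin.cons_zero, Fin.cons_succ]
    linarith

end Pool.Agent.MP_154433_an.T4S

end
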