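import Mathlib
import Pool.Agent.MP_154433_an.t3s.Basic
import Pool.Agent.MP_154433_an.t4.Defs

/-! Structured part, van der Corput part and probability for commuting maps: definitions and
statements of the rows. Names that are not declared here are those of `T3S`. -/

set_option autoImplicit false
set_option linter.unusedVariables false
set_option warn.classDefReducibility false

open MeasureTheory ProbabilityTheory Filter Topology Function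
open scoped BigOperators ComplexConjugate InnerProductSpace

noncomputable section

namespace Pool.Agent.MP_154433_an.T4S

open SG (ABM)
open T3S (B1 MB1 Dual PW AsInv Erg Mix Bd Near Wt Gr yw nu nb)
open T4x (Thin Lau cls)

abbrev Gm (l : ℕ) : Type := Fin l → ℤ

/-! ### blocks for an action of a lattice -/

def dif {k l H : ℕ} (h h' : Fin k → Fin l → Fin H) : Fin k → Gm l :=
  fun j i => ((h' j i : ℕ) : ℤ) - ((h j i : ℕ) : ℤ)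

def blk {X : Type} {k l : ℕ} (A : Gm l → X → X) (q : ℤ) (H : ℕ)
    (β : Fin k → (Fin k → Gm l) → X → ℂ) (x : X) : ℂ :=
  𝔼 h : Fin k → Fin l → Fin H, 𝔼 h' : Fin k → Fin l → Fin H,
    ∏ i, β i (update (dif h h') i 0) (A (q • dif h h' i) x)

def sh {l : ℕ} (v n : Gm l) : Gm l := n + v

/-- convex combinations of blocks on the lattice at scales at least `H0` -/
def CZ (k l : ℕ) (q : ℤ) (H0 : ℕ) : Set (Gm l → ℂ) :=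
  convexHull ℝ {u | ∃ (H : ℕ) (β : Fin k → (Fin k → Gm l) → Gm l → ℂ), H0 ≤ H ∧
    (∀ i τ, B1 (β i τ)) ∧ u = blk sh q H β}

/-- a point of the box -/
def pt {l M : ℕ} (n : Fin l → Fin M) : Gm l := fun i => ((n i : ℕ) : ℤ)

def ShiftS : Prop := ∀ (k l H M : ℕ) (Ψ : (Fin k → Gm l) → ℂ), 1 ≤ H → 1 ≤ M → B1 Ψ →
  ‖(𝔼 h : Fin k → Fin l → Fin H, 𝔼 h' : Fin k → Fin l → Fin H, Ψ (dif h h')) -
    𝔼 h : Fin k → Fin l → Fin H, 𝔼 h' : Fin k → Fin l → Fin H,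
      𝔼 u : Fin k → Fin l → Fin M, 𝔼 u' : Fin k → Fin l → Fin M,
        Ψ (dif h h' + dif u u')‖ ≤ 4 * (k * l) * M / H

def ApxS : Prop := ∀ (k l : ℕ), 1 ≤ k → ∀ (q : ℤ) (R C0 M H0 : ℕ) [NeZero (C0 * M)],
  q ≠ 0 → 2 * ((R : ℤ) + |q|) ≤ C0 → 1 ≤ H0 → ∀ w ∈ CZ (k + 1) l q H0,
  ∃ u : (Fin l → ZMod (C0 * M)) → ℂ, Dual k ((((C0 : ℝ) ^ l) ^ (k + 1)) ^ 2 ^ (k + 1)) u ∧
    ∀ m : Gm l, (∀ i, |m i| ≤ R * M) →
      ‖w m - u fun i => (m i : ZMod (C0 * M))‖ ≤ 4 * ((k + 1) * l) * M / H0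

def CovS : Prop := ∀ (k l : ℕ) (A ε : ℝ), 0 < A → 0 < ε → ∃ C : ℝ, 0 ≤ C ∧
  ∀ (N : ℕ) [NeZero N], ∃ 𝓥 : Finset ((Fin l → ZMod N) → ℂ), (∀ v ∈ 𝓥, B1 v) ∧
    (𝓥.card : ℝ) ≤ Real.exp (C * (Real.log N + 1)) ∧
    ∀ u : (Fin l → ZMod N) → ℂ, Dual k A u → ∃ v ∈ 𝓥, 𝔼 x, ‖u x - v x‖ ≤ ε

def NetS : Prop := ∀ (k l : ℕ), 1 ≤ k → ∀ (q : ℤ), q ≠ 0 → ∀ (J : ℕ) (r : Fin J → Gm l) (ε : ℝ),
  0 < ε → ∃ (C : ℝ) (S : ℕ → Finset (ℕ → ℂ)), (∀ M, ∀ c ∈ S M, B1 c) ∧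
    (∀ M, 1 ≤ M → ((S M).card : ℝ) ≤ Real.exp (C * (Real.log M + 1) ^ 1)) ∧
    ∀ᶠ M in atTop, ∀ (y : ℕ → ℝ) (τ : ℝ),
      (∀ c ∈ S M, ‖∑ d ∈ Finset.range M, (y d : ℂ) * c d‖ ≤ τ) →
      ∀ u : Fin J → Gm l → ℂ, (∀ t, u t ∈ CZ (k + 1) l q (M ^ 2)) →
        𝔼 n : Fin l → Fin M, ‖∑ d ∈ Finset.range M, (y d : ℂ) * ∏ t, u t (pt n + (d : ℤ) • r t)‖ ≤
          τ + ε * ∑ d ∈ Finset.range M, |y d|

/-! ### weights -/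

def Str (k l : ℕ) (q : ℤ) (w : ℕ → ℕ → ℝ) : Prop := ∀ (J : ℕ) (r : Fin J → Gm l) (ε : ℝ), 0 < ε →
  ∀ᶠ M in atTop, ∀ u : Fin J → Gm l → ℂ, (∀ t, u t ∈ CZ (k + 1) l q (M ^ 2)) →
    𝔼 n : Fin l → Fin M, ‖∑ d ∈ Finset.range M, (w M d : ℂ) * ∏ t, u t (pt n + (d : ℤ) • r t)‖ ≤ ε

/-- the weight of a set of integers -/
def wt (w : ℕ → ℕ → ℝ) (M : ℕ) (A : Set ℤ) : ℝ :=
  ∑ d ∈ Finset.range M, w M d * A.indicator (fun _ => (1 : ℝ)) (d : ℤ)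

def Cls (w : ℕ → ℕ → ℝ) : Prop :=
  ∀ (r s L : ℕ) (N : Submodule (Lau r) (Fin s → Lau r)) (η : ℝ), 0 < η →
    ∀ᶠ M : ℕ in atTop, ∀ (m : Fin s → Fin r → ℤ) (d0 : ℤ), (∀ k i, |m k i| ≤ L * M) → |d0| ≤ M →
      |wt w M (cls N m M d0)| ≤ η

def Spr (w : ℕ → ℕ → ℝ) : Prop :=
  ∀ (r s L : ℕ) (N : Submodule (Lau r) (Fin s → Lau r)) (ε : ℝ) (H : ℕ), 0 < ε → 1 ≤ H →
    ∀ᶠ M : ℕ in atTop, ∀ (m : Fin s → Fin r → ℤ) (d0 : ℤ), (∀ k i, |m k i| ≤ L * M) → |d0| ≤ M →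
      Thin ε H (cls N m M d0) → wt w M (cls N m M d0) ≤ 2 * ε

def CntS : Prop := ∀ r s : ℕ, Countable (Submodule (Lau r) (Fin s → Lau r))

def ClsS : Prop := ∀ σ : ℕ → ℝ, (∀ n, 0 ≤ σ n ∧ σ n ≤ 1) →
  ∀ (Ω : Type) [MeasurableSpace Ω] (P : Measure Ω) [IsProbabilityMeasure P] (E : ℕ → Set Ω),
  (∀ n, MeasurableSet (E n)) → iIndepSet E P → (∀ n, P (E n) = ENNReal.ofReal (σ n)) → Gr σ 1 →
  ∀ᵐ ω ∂P, Cls (yw σ fun m => ω ∈ E m)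

def SprS : Prop := ∀ ν ν' y : ℕ → ℕ → ℝ, PW ν' → AsInv ν' →
  Near (fun M d => ν M d - ν' M d) y → Cls y → Spr ν ∧ Spr ν'

def AeS : Prop := ∀ σ : ℕ → ℝ, (∀ n, 0 ≤ σ n ∧ σ n ≤ 1) →
  ∀ (Ω : Type) [MeasurableSpace Ω] (P : Measure Ω) [IsProbabilityMeasure P] (E : ℕ → Set Ω),
  (∀ n, MeasurableSet (E n)) → iIndepSet E P → (∀ n, P (E n) = ENNReal.ofReal (σ n)) → Gr σ 1 →
  ∀ᵐ ω ∂P, ∀ (k l : ℕ) (q : ℤ), 1 ≤ k → q ≠ 0 → Str k l q (yw σ fun m => ω ∈ E m)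

def NearS : Prop := ∀ (k l : ℕ) (q : ℤ) (w w' : ℕ → ℕ → ℝ), Near w w' → Str k l q w' → Str k l q w

/-! ### systems -/

/-- a finite family of steps -/
structure Fam (l : ℕ) where
  ι : Type
  [ft : Fintype ι]
  a : ι → Gm l

attribute [instance] Fam.ft

/-- the steps along a line -/
def ln {l : ℕ} (u : Gm l) (H : ℕ) : Fam l := { ι := Fin H, a := fun h => ((h : ℕ) : ℤ) • u }

/-- the steps in a box -/
def cu (l : ℕ) (q : ℤ) (K : ℕ) : Fam l := { ι := Fin l → Fin K, a := fun h => q • pt h }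

/-- the exponents and their differences -/
def UU {l n : ℕ} (r : Fin n → Gm l) : Set (Gm l) :=
  {u | (∃ i, u = r i) ∨ ∃ i j, i ≠ j ∧ u = r i - r j}

section Sys

variable {X : Type} [m0 : MeasurableSpace X] {l : ℕ}

structure Act (μ : Measure X) (A : Gm l → X → X) : Prop where
  mp : ∀ v, MeasurePreserving (A v) μ μ
  zero : ∀ x, A 0 x = x
  add : ∀ v w x, A (v + w) x = A v (A w x)

def CX (k : ℕ) (A : Gm l → X → X) (q : ℤ) (H0 : ℕ) : Set (X → ℂ) :=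
  convexHull ℝ {u | ∃ (H : ℕ) (β : Fin k → (Fin k → Gm l) → X → ℂ), H0 ≤ H ∧
    (∀ i τ, MB1 (β i τ)) ∧ u = blk A q H β}

def DD (k : ℕ) (μ : Measure X) (A : Gm l → X → X) (q : ℤ) : Set (X → ℂ) :=
  {D | MB1 D ∧ ∀ (H0 : ℕ) (ε : ℝ), 0 < ε → ∃ u ∈ CX k A q H0, ∫ x, ‖D x - u x‖ ∂μ ≤ ε}

def Gen (k : ℕ) (μ : Measure X) (A : Gm l → X → X) (q : ℤ) : Set (X → ℝ) :=
  {φ | (fun x => (φ x : ℂ)) ∈ DD (k + 1) μ A q}

def B0 (k : ℕ) (μ : Measure X) (A : Gm l → X → X) (q : ℤ) : MeasurableSpace X :=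
  ⨆ φ ∈ Gen k μ A q, MeasurableSpace.comap φ inferInstance

omit m0 in
/-- the weighted multiple average -/
def wavg {ι : Type} [Fintype ι] (A : Gm l → X → X) (w : ℕ → ℕ → ℝ) (r : ι → Gm l)
    (f : ι → X → ℂ) (M : ℕ) (x : X) : ℂ :=
  ∑ d ∈ Finset.range M, (w M d : ℂ) * ∏ i, f i (A ((d : ℤ) • r i) x)

def Van {ι : Type} [Fintype ι] (μ : Measure X) (A : Gm l → X → X) (w : ℕ → ℕ → ℝ) (r : ι → Gm l)
    (f : ι → X → ℂ) : Prop := Tendsto (fun M => ∫ x, ‖wavg A w r f M x‖ ^ 2 ∂μ) atTop (𝓝 0)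

omit m0 in
def ddX (A : Gm l → X → X) (v : Gm l) (g : X → ℂ) : X → ℂ := fun x => g (A v x) * conj (g x)

def QX (μ : Measure X) (A : Gm l → X → X) : List (Fam l) → (X → ℂ) → ℝ
  | [], g => (∫ x, g x ∂μ).re
  | F :: L, g => 𝔼 h : F.ι, 𝔼 h' : F.ι, QX μ A L (ddX A (F.a h' - F.a h) g)

/-- sets that are invariant in the direction `u` are invariant under all multiples of `q` -/
def Dom (μ : Measure X) (A : Gm l → X → X) (u : Gm l) (q : ℤ) : Prop :=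
  ∀ S, MeasurableSet S → A u ⁻¹' S =ᵐ[μ] S → ∀ v, A (q • v) ⁻¹' S =ᵐ[μ] S

def EE (μ : Measure X) (A : Gm l → X → X) {n : ℕ} (r : Fin n → Gm l) (q : ℤ) : Prop :=
  ∀ u ∈ UU r, Dom μ A u q

/-- the weighted average for a family of maps -/
def VanT (μ : Measure X) (T : Fin l → X ≃ᵐ X) (w : ℕ → ℕ → ℝ) (f : Fin l → X → ℂ) : Prop :=
  Tendsto (fun M => ∫ x, ‖∑ d ∈ Finset.range M, (w M d : ℂ) * ∏ i, f i ((⇑(T i))^[d] x)‖ ^ 2 ∂μ)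
    atTop (𝓝 0)

/-- the hypothesis of the theorem -/
def HypE (μ : Measure X) (T : Fin l → X ≃ᵐ X) : Prop :=
  (∀ i, ⇑(T i) = id ∨ ∃ q : ℕ, 1 ≤ q ∧ ∀ S, MeasurableSet S → T i ⁻¹' S =ᵐ[μ] S →
    ∀ k, (⇑(T k))^[q] ⁻¹' S =ᵐ[μ] S) ∧
  ∀ i j, ⇑(T i) = ⇑(T j) ∨ ∃ q : ℕ, 1 ≤ q ∧ ∀ S, MeasurableSet S →
    (fun x => T i ((T j).symm x)) ⁻¹' S =ᵐ[μ] S → ∀ k, (⇑(T k))^[q] ⁻¹' S =ᵐ[μ] S

/-- the conclusion of the theorem -/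
def Concl (p : ℕ → Prop) (μ : Measure X) (T : Fin l → X ≃ᵐ X) (f : Fin l → X → ℝ) : Prop :=
  ∃ g : X → ℝ, MemLp g 2 μ ∧
    Tendsto (fun N : ℕ => eLpNorm (fun x => (N : ℝ)⁻¹ *
        (∑ n ∈ Finset.range N, ∏ i, f i ((⇑(T i))^[Nat.nth p n] x)) - g x) 2 μ) atTop (𝓝 0) ∧
    Tendsto (fun N : ℕ => eLpNorm (fun x => (N : ℝ)⁻¹ *
        (∑ n ∈ Finset.Icc 1 N, ∏ i, f i ((⇑(T i))^[n] x)) - g x) 2 μ) atTop (𝓝 0)

end Sys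

def Good {ι : Type} [Fintype ι] {X : Type} (B : MeasurableSpace X) {m0 : MeasurableSpace X}
    (μ : Measure X) {l : ℕ} (A : Gm l → X → X) (w : ℕ → ℕ → ℝ) (r : ι → Gm l) : Prop :=
  ∀ f : ι → X → ℂ, (∀ i, ABM B μ (f i)) → Van μ A w r f

/-- the property of a factor used in the compact step -/
def Unif {X : Type} (B : MeasurableSpace X) {m0 : MeasurableSpace X} (μ : Measure X) {l n : ℕ}
    (A : Gm l → X → X) (w : ℕ → ℕ → ℝ) (r : Fin n → Gm l) : Prop :=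
  ∀ u ∈ UU r, ∀ (i0 : Fin n) (g : X → ℂ), MB1 g → μ[g | B] =ᵐ[μ] 0 → ∀ ε : ℝ, 0 < ε →
    ∃ (H : ℕ) (a : ℕ → ℕ → ℝ), 1 ≤ H ∧
      ∑ n ∈ Finset.range H, ∑ n' ∈ Finset.range H, a n n' ≤ ε * H ^ 2 ∧
      ∀ (m m' : ℕ) (c : Fin n → X → ℂ), (∀ i, MB1 (c i)) → ∀ η : ℝ, 0 < η → ∀ᶠ M in atTop,
        ∫ x, ‖wavg A w r (update c i0 fun y =>
          g (A ((m : ℤ) • u) y) * conj (g (A ((m' : ℤ) • u) y))) M x‖ ^ 2 ∂μ ≤ a m m' + η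

/-- an invariant sub-sigma-algebra containing the sets that are invariant under multiples of `q` -/
def FacI {X : Type} (B : MeasurableSpace X) {m0 : MeasurableSpace X} (μ : Measure X) {l : ℕ}
    (A : Gm l → X → X) (q : ℤ) : Prop :=
  B ≤ m0 ∧ (∀ v S, MeasurableSet[B] S → MeasurableSet[B] (A v ⁻¹' S)) ∧
    ∀ S, MeasurableSet[m0] S → (∀ v, A (q • v) ⁻¹' S =ᵐ[μ] S) → MeasurableSet[B] S

def ProdS : Prop := ∀ (k l : ℕ) (q : ℤ) (w : ℕ → ℕ → ℝ), Str k l q w → Bd w →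
  ∀ (X : Type) [MeasurableSpace X] (μ : Measure X) [IsProbabilityMeasure μ] (A : Gm l → X → X),
  Act μ A → ∀ (ι : Type) [Fintype ι] (r : ι → Gm l) (D : ι → X → ℂ),
  (∀ t, D t ∈ DD (k + 1) μ A q) → Van μ A w r D

def FacS : Prop := ∀ (k l : ℕ) (q : ℤ) (X : Type) [MeasurableSpace X] (μ : Measure X)
  [IsProbabilityMeasure μ] (A : Gm l → X → X), Act μ A → FacI (B0 k μ A q) μ A q ∧
    ∀ D ∈ DD (k + 1) μ A q, Measurable[B0 k μ A q] D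

def GoodS : Prop := ∀ (k l : ℕ) (q : ℤ) (w : ℕ → ℕ → ℝ), Str k l q w → Bd w →
  ∀ (X : Type) [MeasurableSpace X] (μ : Measure X) [IsProbabilityMeasure μ] (A : Gm l → X → X),
  Act μ A → ∀ (ι : Type) [Fintype ι] (r : ι → Gm l), Good (B0 k μ A q) μ A w r

def LinkS : Prop := ∀ (l : ℕ) (X : Type) [MeasurableSpace X] (μ : Measure X)
  [IsProbabilityMeasure μ] (A : Gm l → X → X), Act μ A → ∀ (q : ℤ) (H n : ℕ) (g : X → ℂ), MB1 g →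
  ∃ β : Fin n → (Fin n → Gm l) → X → ℂ, (∀ i τ, MB1 (β i τ)) ∧
    QX μ A (List.replicate n (cu l q H)) g = (∫ x, g x * blk A q H β x ∂μ).re

def ZeroS : Prop := ∀ (l : ℕ) (X : Type) [MeasurableSpace X] (μ : Measure X)
  [IsProbabilityMeasure μ] (A : Gm l → X → X), Act μ A → ∀ (q : ℤ) (n : ℕ) (g : X → ℂ), MB1 g →
  (∀ D ∈ DD n μ A q, ∫ x, g x * D x ∂μ = 0) → ∀ ε : ℝ, 0 < ε →
  ∃ H, 1 ≤ H ∧ QX μ A (List.replicate n (cu l q H)) g ≤ ε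

def PermS : Prop := ∀ (l : ℕ) (X : Type) [MeasurableSpace X] (μ : Measure X)
  (A : Gm l → X → X), Act μ A → ∀ L L' : List (Fam l), L.Perm L' → ∀ g : X → ℂ,
  QX μ A L g = QX μ A L' g

/-- invariance of functions follows from invariance of sets -/
def InvFS : Prop := ∀ (X : Type) [MeasurableSpace X] (μ : Measure X) (S T : X → X),
  MeasurePreserving S μ μ → MeasurePreserving T μ μ →
  (∀ A, MeasurableSet A → S ⁻¹' A =ᵐ[μ] A → T ⁻¹' A =ᵐ[μ] A) →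
  ∀ f : X → ℂ, AEStronglyMeasurable f μ → (fun x => f (S x)) =ᵐ[μ] f → (fun x => f (T x)) =ᵐ[μ] f

def InnS : Prop := ∀ (l : ℕ) (X : Type) [MeasurableSpace X] (μ : Measure X)
  [IsProbabilityMeasure μ] (A : Gm l → X → X), Act μ A → ∀ (u : Gm l) (q : ℤ), Dom μ A u q →
  ∀ (K : ℕ), 1 ≤ K → ∀ g : X → ℂ, MB1 g → ∀ ε : ℝ, 0 < ε →
  ∀ᶠ H in atTop, QX μ A [ln u H] g ≤ QX μ A [cu l q K] g + ε

def RepS : Prop := ∀ (l : ℕ) (X : Type) [MeasurableSpace X] (μ : Measure X)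
  [IsProbabilityMeasure μ] (A : Gm l → X → X), Act μ A → ∀ (q : ℤ) (K : ℕ), 1 ≤ K →
  ∀ (n : ℕ) (u : Fin n → Gm l), (∀ j, Dom μ A (u j) q) → ∀ g : X → ℂ, MB1 g → ∀ ε : ℝ, 0 < ε →
  ∃ H : Fin n → ℕ, (∀ j, 1 ≤ H j) ∧
    QX μ A (List.ofFn fun j => ln (u j) (H j)) g ≤ QX μ A (List.replicate n (cu l q K)) g + ε

def GvnS : Prop := ∀ w : ℕ → ℕ → ℝ, PW w → AsInv w →
  ∀ (l : ℕ) (X : Type) [MeasurableSpace X] (μ : Measure X) [IsProbabilityMeasure μ]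
  (A : Gm l → X → X), Act μ A → ∀ (n : ℕ) (H : Fin (n + 1) → ℕ), (∀ j, 1 ≤ H j) →
  ∀ (r : Fin (n + 1) → Gm l) (f : Fin (n + 1) → X → ℂ), (∀ i, MB1 (f i)) → ∀ η : ℝ, 0 < η →
  ∀ᶠ M in atTop, (∫ x, ‖wavg A w r f M x‖ ^ 2 ∂μ) ^ 2 ^ n ≤
    QX μ A (List.ofFn fun j : Fin (n + 1) =>
      ln ((Fin.cons (r 0) fun i : Fin n => r 0 - r i.succ : Fin (n + 1) → Gm l) j) (H j)) (f 0) + η

def UnifS : Prop := ∀ w : ℕ → ℕ → ℝ, PW w → AsInv w →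
  ∀ (l : ℕ) (X : Type) [MeasurableSpace X] (μ : Measure X) [IsProbabilityMeasure μ]
  (A : Gm l → X → X), Act μ A → ∀ (q : ℤ) (n : ℕ) (r : Fin n → Gm l), EE μ A r q →
  Unif (B0 n μ A q) μ A w r

/-- every system of the class has a good factor that is large enough for the compact step -/
def HasB0 (ν ν' : ℕ → ℕ → ℝ) {l n : ℕ} (r : Fin n → Gm l) (q : ℤ) : Prop :=
  ∀ (X : Type) [MeasurableSpace X] (μ : Measure X) [IsProbabilityMeasure μ] (A : Gm l → X → X),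
  Act μ A → EE μ A r q → ∃ B : MeasurableSpace X, FacI B μ A q ∧
    Good B μ A (fun M d => ν M d - ν' M d) r ∧ Unif B μ A ν' r

/-- the deterministic theorem -/
def DetS : Prop := ∀ ν ν' : ℕ → ℕ → ℝ, PW ν → PW ν' → Erg ν → Erg ν' → Spr ν → Spr ν' →
  ∀ (l n : ℕ) (r : Fin n → Gm l) (q : ℤ), HasB0 ν ν' r q →
  ∀ (X : Type) [MeasurableSpace X] (μ : Measure X) [IsProbabilityMeasure μ] (A : Gm l → X → X),
  Act μ A → EE μ A r q → ∀ f : Fin n → X → ℂ, (∀ i, MB1 (f i)) →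
  Van μ A (fun M d => ν M d - ν' M d) r f

/-- the action generated by commuting maps -/
def ActS : Prop := ∀ (l : ℕ) (X : Type) [MeasurableSpace X] (μ : Measure X) (T : Fin l → X ≃ᵐ X),
  (∀ i, MeasurePreserving (⇑(T i)) μ μ) → (∀ i j, Function.Commute ⇑(T i) ⇑(T j)) →
  ∃ A : Gm l → X → X, Act μ A ∧ (∀ i (d : ℕ), A ((d : ℤ) • Pi.single i 1) = (⇑(T i))^[d]) ∧
    (∀ i j, A (Pi.single i 1 - Pi.single j 1) = fun x => T i ((T j).symm x)) ∧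
    ∀ (S : Set X) (q : ℕ) (c : ℤ), MeasurableSet S → (∀ k, (⇑(T k))^[q] ⁻¹' S =ᵐ[μ] S) →
      ∀ v : Gm l, A (((q : ℤ) * c) • v) ⁻¹' S =ᵐ[μ] S

def RedS : Prop := ∀ (w w' : ℕ → ℕ → ℝ), Near w w' →
  Tendsto (fun M => ∑ d ∈ Finset.range M, w' M d) atTop (𝓝 0) →
  ∀ (l : ℕ) (X : Type) [MeasurableSpace X] (μ : Measure X) [IsProbabilityMeasure μ]
  (T : Fin l → X ≃ᵐ X), (∀ i, MeasurePreserving (⇑(T i)) μ μ) →
  (∀ i j, Function.Commute ⇑(T i) ⇑(T j)) → HypE μ T →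
  (∀ (n : ℕ) (r : Fin n → Gm l) (q : ℤ) (A : Gm l → X → X), 1 ≤ n → q ≠ 0 → Act μ A →
    EE μ A r q → ∀ f : Fin n → X → ℂ, (∀ i, MB1 (f i)) → Van μ A w r f) →
  ∀ f : Fin l → X → ℂ, (∀ i, MB1 (f i)) → VanT μ T w' f

def EndS : Prop := ∀ (σ : ℕ → ℝ) (p : ℕ → Prop), (∀ n, 0 ≤ σ n) → Antitone σ →
  Tendsto (Wt σ) atTop atTop →
  Tendsto (fun M => ∑ d ∈ Finset.range M, yw σ p M d) atTop (𝓝 0) →
  ∀ (l : ℕ) (X : Type) [MeasurableSpace X] (μ : Measure X) [IsProbabilityMeasure μ]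
  (T : Fin l → X ≃ᵐ X), (∀ i, MeasurePreserving (⇑(T i)) μ μ) →
  (∀ i j, Function.Commute ⇑(T i) ⇑(T j)) →
  (∀ f : Fin l → X → ℂ, (∀ i, MB1 (f i)) → VanT μ T (yw σ p) f) →
  ∀ f : Fin l → X → ℝ, (∀ i, MemLp (f i) ⊤ μ) → Concl p μ T f

def MainS : Prop := ∀ (σ : ℕ → ℝ), (∀ n, 0 ≤ σ n ∧ σ n ≤ 1) → Antitone σ → Gr σ 1 →
  ∀ (Ω : Type) [MeasurableSpace Ω] (P : Measure Ω) [IsProbabilityMeasure P]
    (E : ℕ → Set Ω), (∀ n, MeasurableSet (E n)) → iIndepSet E P →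
    (∀ n, P (E n) = ENNReal.ofReal (σ n)) →
  ∀ᵐ ω ∂P, ∀ (X : Type) [MeasurableSpace X] (μ : Measure X) [IsProbabilityMeasure μ]
    (l : ℕ) (T : Fin l → X ≃ᵐ X) (f : Fin l → X → ℝ),
    (∀ i, MeasurePreserving (⇑(T i)) μ μ) → (∀ i j, Function.Commute ⇑(T i) ⇑(T j)) →
    HypE μ T → (∀ i, MemLp (f i) ⊤ μ) → Concl (fun m => ω ∈ E m) μ T f

end Pool.Agent.MP_154433_an.T4S

end
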